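import Mathlib
import Pool.Agent.Lib.MP_f9aece_nt_rm.Stmts
import Pool.Agent.Lib.MP_f9aece_nt_ps.Defs
import Pool.Agent.Lib.MP_f9aece_nt_mt.StmtsT
import Pool.Agent.Lib.MP_f9aece_nt_mp.StmtsP
import Pool.Agent.Lib.MP_f9aece_nt_ms.StmtsZ
import Pool.Agent.Lib.MP_f9aece_nt_ms.StmtsQ

/-!
# Moments of weighted partial sums of zeta, weights with jumps: definitions and statements

The weight is `w0 x + ∑ j < n, a j * 1[x ≤ b j]`, `w0` Lipschitz, zero for `x ≥ 1`, `0 < b j ≤ 1`,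
with the value one at zero.  Its smoothed form has `wc τ (x / b j)` for `1[x ≤ b j]`.

Row `X` proves `theorem x : X` (small first letter) in `Pool/Agent/Lib/UFY/X.lean`; library facts and
other rows are taken as hypotheses, as said in the table.
-/

set_option autoImplicit false

namespace Pool.Agent.UFY

open MeasureTheory Set Filter Topology Complex
open Pool.Agent.Lib
open Pool.Agent.Lib.MS (MVP ZS)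
open Pool.Agent.Lib.RM (SG MM GLm NT)

/-- the weight with the jumps `a j` at `b j`, `j < n` -/
noncomputable def WJ (w0 : ℝ → ℂ) (n : ℕ) (a : ℕ → ℂ) (b : ℕ → ℝ) (x : ℝ) : ℂ :=
  w0 x + ∑ j ∈ Finset.range n, a j * (if x ≤ b j then 1 else 0)

/-- the smoothed weight -/
noncomputable def WT (w0 : ℝ → ℂ) (n : ℕ) (a : ℕ → ℂ) (b : ℕ → ℝ) (τ x : ℝ) : ℂ :=
  w0 x + ∑ j ∈ Finset.range n, a j * RM.wc τ (x / b j)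

/-- the hypotheses on the weight -/
structure Wt (B Lam : ℝ) (w0 : ℝ → ℂ) (n : ℕ) (a : ℕ → ℂ) (b : ℕ → ℝ) : Prop where
  cut : MT.CutC B Lam w0
  pos : ∀ j, 0 < b j
  le : ∀ j, b j ≤ 1
  one : WJ w0 n a b 0 = 1

/-- closeness of the sums over the integers -/
def NClose (k δ C : ℝ) (w : ℝ → ℂ) (v : ℝ → ℝ → ℂ) : Prop := ∀ τ : ℝ, 0 < τ → τ ≤ 1 →
  ∃ C0 : ℝ, 1 ≤ C0 ∧ ∀ L : ℝ, C0 ≤ L → ∀ (X η : ℝ) (ν : Measure ℝ), MVP ν X η → η ≤ 1 →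
  Real.exp (C0 * L) ≤ X → ∫ t, ‖ZS w L t - ZS (v τ) L t‖ ^ (2 * k) ∂ν ≤ C * (τ ^ δ * L ^ (k ^ 2))

/-- closeness in the Gaussian model -/
def GClose (k δ C : ℝ) (u : ℕ → ℕ → ℂ) (v : ℝ → ℕ → ℕ → ℂ) : Prop := ∀ τ : ℝ, 0 < τ → τ ≤ 1 →
  ∃ L0 : ℕ, ∀ L : ℕ, L0 ≤ L → MM k (SG (fun n => u L n - v τ L n) (Finset.Icc 1 L) L)
    ≤ ENNReal.ofReal (C * (τ ^ δ * (L : ℝ) ^ (k ^ 2)))

/-- the law over intervals -/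
def ILaw (k : ℝ) (w : ℝ → ℂ) (c : ℝ) : Prop := ∀ ε : ℝ, 0 < ε → ∃ C : ℝ, 0 < C ∧
  ∀ L T : ℝ, C ≤ L → 1 ≤ T → C * L ≤ Real.log T → ∀ x : ℝ,
  |T⁻¹ * (∫ t in x..(x + T), ‖ZS w L t‖ ^ (2 * k)) - c * L ^ (k ^ 2)| ≤ ε * L ^ (k ^ 2)

/-- the Dirichlet polynomial with weight at `s` -/
noncomputable def SP (w : ℝ → ℂ) (L : ℝ) (s : ℂ) : ℂ :=
  ∑ n ∈ Finset.Icc 1 ⌊Real.exp L⌋₊, w (Real.log n / L) * (n : ℂ) ^ (-s)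

/-! ### the integers -/

/-- NCut: the smoothed weight is Lipschitz -/
def NCut : Prop := ∀ (B Lam : ℝ) (w0 : ℝ → ℂ) (n : ℕ) (a : ℕ → ℂ) (b : ℕ → ℝ),
  Wt B Lam w0 n a b → ∀ τ : ℝ, 0 < τ → τ ≤ 1 →
  (∃ B' Lam' : ℝ, MT.CutC B' Lam' (WT w0 n a b τ)) ∧ WT w0 n a b τ 0 = 1

/-- NDiff: the smoothed sums are close to the sums with jumps -/
def NDiff : Prop := ∀ (q : ℕ) (k : ℝ), 1 ≤ q → 0 < k → (q : ℝ) - 1 < k → k ≤ q →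
  ∀ (B Lam : ℝ) (w0 : ℝ → ℂ) (n : ℕ) (a : ℕ → ℂ) (b : ℕ → ℝ), Wt B Lam w0 n a b →
  ∃ C : ℝ, 1 ≤ C ∧ NClose k (k * (k - q + 1)) C (WJ w0 n a b) (WT w0 n a b)

/-- NLim: existence of the limit -/
def NLim : Prop := ∀ (k δ C : ℝ) (w : ℝ → ℂ) (v : ℝ → ℝ → ℂ), 0 < k → 0 < δ → 0 ≤ C →
  NClose k δ C w v → (∀ τ : ℝ, 0 < τ → τ ≤ 1 → ∃ c : ℝ, 0 ≤ c ∧ NT k (v τ) c) →
  ∃ c : ℝ, 0 ≤ c ∧ NT k w c

/-- NTo: the limit is the limit of the limits -/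
def NTo : Prop := ∀ (k δ C : ℝ) (w : ℝ → ℂ) (v : ℝ → ℝ → ℂ), 0 < k → 0 < δ → 0 ≤ C →
  NClose k δ C w v → ∀ c : ℝ, NT k w c → ∀ cc : ℝ → ℝ,
  (∀ τ : ℝ, 0 < τ → τ ≤ 1 → NT k (v τ) (cc τ)) → Tendsto cc (𝓝[>] 0) (𝓝 c)

/-! ### the Gaussian model -/

/-- GTo: the limit is the limit of the limits -/
def GTo : Prop := ∀ (k δ C : ℝ) (u : ℕ → ℕ → ℂ) (v : ℝ → ℕ → ℕ → ℂ), 0 < k → 0 < δ → 0 ≤ C →
  GClose k δ C u v → ∀ (h : ℝ) (hh : ℝ → ℝ), (∀ τ : ℝ, 0 < τ → τ ≤ 1 → GLm k (v τ) (hh τ)) →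
  Tendsto hh (𝓝[>] 0) (𝓝 h) → GLm k u h

/-- GSmall: small weights -/
def GSmall : Prop := ∀ (q : ℕ) (k : ℝ), 1 ≤ q → 0 < k → (q : ℝ) - 1 < k → k ≤ q →
  ∃ C : ℝ, 1 ≤ C ∧ ∀ (f : ℕ → ℂ) (L : ℕ) (s : ℝ), 1 ≤ L → 0 ≤ s → f 0 = 0 →
  (∀ n, L < n → f n = 0) → (∀ n, ‖f n‖ ≤ s) →
  MM k (SG f (Finset.Icc 1 L) L) ≤ ENNReal.ofReal (C * (s ^ 2 * L) ^ k * (L : ℝ) ^ (k ^ 2))

/-- GLen: weights which vanish beyond `L'` -/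
def GLen : Prop := ∀ (u : ℕ → ℂ) (L L' : ℕ), L' ≤ L → (∀ n, L' < n → u n = 0) → ∀ z : ℕ → ℂ,
  SG u (Finset.Icc 1 L) L z = SG u (Finset.Icc 1 L') L' z

/-- MMSum: moments of sums -/
def MMSum : Prop := ∀ (k : ℝ) (m : ℕ), 0 < k → ∃ C : ℝ, 1 ≤ C ∧ ∀ F : ℕ → (ℕ → ℂ) → ℂ,
  (∀ j, Continuous (F j)) → MM k (fun z => ∑ j ∈ Finset.range m, F j z)
    ≤ ENNReal.ofReal C * ∑ j ∈ Finset.range m, MM k (F j)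

/-- GDiff: the smoothed sums are close to the sums with jumps -/
def GDiff : Prop := ∀ (q : ℕ) (k : ℝ), 1 ≤ q → 0 < k → (q : ℝ) - 1 < k → k ≤ q →
  ∀ (B Lam : ℝ) (w0 : ℝ → ℂ) (m : ℕ) (a : ℕ → ℂ) (b : ℕ → ℝ), Wt B Lam w0 m a b →
  ∃ C : ℝ, 1 ≤ C ∧ GClose k (k * (k - q + 1)) C (fun L n => WJ w0 m a b ((n : ℝ) / L))
    (fun τ L n => WT w0 m a b τ ((n : ℝ) / L))

/-- RecW: the coefficients given by the recursion -/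
def RecW : Prop := ∀ c z : ℕ → ℂ, c 0 = 1 → (∀ n : ℕ, ((n : ℂ) + 1) * c (n + 1)
    = ∑ j ∈ Finset.range (n + 1), (Real.sqrt ((j : ℝ) + 1) : ℂ) * z (j + 1) * c (n - j)) →
  ∀ (u : ℕ → ℂ) (L : ℕ), (∀ n, L < n → u n = 0) →
  ∑ n ∈ Finset.range (L + 1), u n * c n = SG u (Finset.Icc 1 L) L z

/-- KLip: the constant for Lipschitz weights -/
def KLip : Prop := ∀ (k B Lam : ℝ) (w : ℝ → ℂ), 0 < k → MT.CutC B Lam w → w 0 = 1 → ∀ c : ℝ,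
  NT k w c → GLm k (fun L n => w ((n : ℝ) / L)) (c / NL.ak k)

/-! ### intervals, positivity -/

/-- ToInt: the law over intervals -/
def ToInt : Prop := ∀ (k : ℝ) (w : ℝ → ℂ) (c : ℝ), 0 < k → NT k w c → ILaw k w c

/-- PWt: a Lipschitz cut-off which is a combination of shifts of the weight -/
def PWt : Prop := ∀ (B Lam : ℝ) (w0 : ℝ → ℂ) (n : ℕ) (a : ℕ → ℂ) (b : ℕ → ℝ),
  Wt B Lam w0 n a b → ∃ (m : ℕ) (lam : ℕ → ℂ) (w : ℝ → ℂ) (Lam' : ℝ),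
  (∀ x y, ‖w x - w y‖ ≤ Lam' * |x - y|) ∧ w 0 = 1 ∧ (∀ x, 1 ≤ x → w x = 0) ∧
  ∀ x : ℝ, 0 ≤ x → x ≤ 1 → w x =
    (∑ i ∈ Finset.range (m + 1), lam i * (Real.exp (-(i * x)) : ℂ)) * WJ w0 n a b x

/-- PConv: convexity of the means of a Dirichlet polynomial -/
def PConv : Prop := ∀ (p B : ℝ) (m : ℕ), 0 < p → 0 < B → ∃ C : ℝ, 1 ≤ C ∧ ∀ w : ℝ → ℂ,
  (∀ x, 0 ≤ x → ‖w x‖ ≤ B) → ∀ i : ℕ, i ≤ m → ∀ L T : ℝ, 1 ≤ L → (m : ℝ) ≤ L → C ≤ T →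
  ∫ t in (0 : ℝ)..T, ‖SP w L (((1 / 2 + i / L : ℝ) : ℂ) + I * t)‖ ^ p
    ≤ C * ((∫ t in (-T)..(2 * T), ‖ZS w L t‖ ^ p) + T / L + Real.exp (p * L))

/-- PPos: positivity of the constant -/
def PPos : Prop := ∀ (k B Lam : ℝ) (w0 : ℝ → ℂ) (n : ℕ) (a : ℕ → ℂ) (b : ℕ → ℝ), 0 < k →
  Wt B Lam w0 n a b → ∀ c : ℝ, 0 ≤ c → ILaw k (WJ w0 n a b) c → 0 < c

/-- ZWin: windows -/
def ZWin : Prop := ∀ (φ : ℝ → ℂ) (R : ℝ), MS.Adm φ R → ∀ k c : ℝ, 0 < k → 0 < c →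
  ILaw k (fun r => MS.psi φ (R * r)) c → ∀ ε : ℝ, 0 < ε → ∃ C : ℝ, 0 < C ∧ ∀ H T : ℝ, 0 < H →
  C * H ≤ 1 → 1 ≤ T → C ≤ H * Real.log T → ∀ x : ℝ,
  |T⁻¹ * (∫ t in x..(x + T), ‖MS.ZW φ H t‖ ^ (2 * k)) - c * R ^ (k ^ 2) * H ^ (-(k ^ 2))|
    ≤ ε * H ^ (-(k ^ 2))

end Pool.Agent.UFY
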