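import Mathlib
import Pool.Agent.Lib.UFY.Defs

/-!
Moments of weighted partial sums of zeta, weights with jumps: in the Gaussian model the sums with
the smoothed weight are close to the sums with the weight.
-/

set_option autoImplicit false

namespace Pool.Agent.UFY

open MeasureTheory Set Filter Topology Complex
open Pool.Agent.Lib
open Pool.Agent.Lib.MS (MVP ZS)
open Pool.Agent.Lib.RM (SG MM GLm NT)

namespace GDiffx

/-- one jump -/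
noncomputable def ej (τ b : ℝ) (L : ℕ) (n : ℕ) : ℂ :=
  if (n : ℝ) / L ≤ b then ((RM.rp τ ((n : ℝ) / L / b) : ℝ) : ℂ) else 0

lemma rp_one {τ x : ℝ} (hτ : 0 < τ) (hx : 1 ≤ x) : RM.rp τ x = 1 := by
  unfold RM.rp
  have h1 : 1 ≤ (x - (1 - τ)) / τ := by
    rw [le_div_iff₀ hτ]
    linarith
  rw [min_eq_left h1]
  norm_num

lemma rp_lip {τ : ℝ} (hτ : 0 < τ) (x y : ℝ) : |RM.rp τ x - RM.rp τ y| ≤ τ⁻¹ * |x - y| := by
  unfold RM.rp
  have h1 : |max 0 (min 1 ((x - (1 - τ)) / τ)) - max 0 (min 1 ((y - (1 - τ)) / τ))|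
      ≤ |min 1 ((x - (1 - τ)) / τ) - min 1 ((y - (1 - τ)) / τ)| := by
    have := abs_max_sub_max_le_max (0 : ℝ) (min 1 ((x - (1 - τ)) / τ)) 0
      (min 1 ((y - (1 - τ)) / τ))
    simpa using this
  have h2 : |min 1 ((x - (1 - τ)) / τ) - min 1 ((y - (1 - τ)) / τ)|
      ≤ |(x - (1 - τ)) / τ - (y - (1 - τ)) / τ| := by
    have := abs_min_sub_min_le_max (1 : ℝ) ((x - (1 - τ)) / τ) 1 ((y - (1 - τ)) / τ)
    simpa using this
  refine (h1.trans h2).trans (le_of_eq ?_)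
  rw [← sub_div, abs_div, abs_of_pos hτ, div_eq_inv_mul]
  congr 2
  ring

lemma diff (w0 : ℝ → ℂ) (a : ℕ → ℂ) (b : ℕ → ℝ) {τ : ℝ} (hτ : 0 < τ) (hb : ∀ j, 0 < b j)
    (m L n : ℕ) : WJ w0 m a b ((n : ℝ) / L) - WT w0 m a b τ ((n : ℝ) / L)
      = ∑ j ∈ Finset.range m, a j * ej τ (b j) L n := by
  unfold WJ WT
  rw [add_sub_add_left_eq_sub, ← Finset.sum_sub_distrib]
  refine Finset.sum_congr rfl fun j _ => ?_
  rw [← mul_sub]
  congr 1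
  unfold ej RM.wc
  split_ifs with h
  · push_cast
    ring
  · have h1 : 1 ≤ (n : ℝ) / L / b j := by
      rw [le_div_iff₀ (hb j)]
      linarith [not_le.mp h]
    rw [rp_one hτ h1]
    simp

lemma SG_sum (u : ℕ → ℕ → ℂ) (a : ℕ → ℂ) (D : Finset ℕ) (L m : ℕ) (z : ℕ → ℂ) :
    SG (fun n => ∑ j ∈ Finset.range m, a j * u j n) D L z
      = ∑ j ∈ Finset.range m, a j * SG (u j) D L z := by
  unfold SG RM.PG
  simp only [Finset.mul_sum, Finset.sum_mul]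
  rw [Finset.sum_comm]
  refine Finset.sum_congr rfl fun j _ => Finset.sum_congr rfl fun α _ => by ring

lemma SG_add (u v : ℕ → ℂ) (D : Finset ℕ) (L : ℕ) (z : ℕ → ℂ) :
    SG (fun n => u n + v n) D L z = SG u D L z + SG v D L z := by
  unfold SG RM.PG
  rw [← Finset.sum_add_distrib]
  refine Finset.sum_congr rfl fun α _ => by ring

lemma MM_const (k : ℝ) (c : ℂ) (F : (ℕ → ℂ) → ℂ) :
    MM k (fun z => c * F z) = ENNReal.ofReal (‖c‖ ^ (2 * k)) * MM k F := by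
  unfold MM
  rw [← lintegral_const_mul' _ _ ENNReal.ofReal_ne_top]
  refine lintegral_congr fun z => ?_
  rw [norm_mul, Real.mul_rpow (norm_nonneg _) (norm_nonneg _), ENNReal.ofReal_mul (by positivity)]

/-- the part of a jump which is not an edge weight -/
noncomputable def fj (τ b : ℝ) (L : ℕ) (n : ℕ) : ℂ := ej τ b L n - RM.ed τ ⌊b * L⌋₊ n

lemma ej_zero {τ b : ℝ} {L n : ℕ} (hL : 0 < L) (hn : ⌊b * L⌋₊ < n) : ej τ b L n = 0 := by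
  unfold ej
  rw [if_neg]
  have hL' : (0 : ℝ) < L := by exact_mod_cast hL
  rw [div_le_iff₀ hL', not_le]
  exact Nat.lt_of_floor_lt hn

lemma fj_zero {τ b : ℝ} {L n : ℕ} (hL : 0 < L) (hn : ⌊b * L⌋₊ < n) : fj τ b L n = 0 := by
  unfold fj RM.ed
  rw [ej_zero hL hn, if_neg (by omega), sub_zero]

lemma fj_at_zero {τ b : ℝ} {L : ℕ} (hb : 0 < b) : fj τ b L 0 = 0 := by
  unfold fj RM.ed ej
  simp [hb.le]

lemma fj_norm {τ b : ℝ} {L : ℕ} (hτ : 0 < τ) (hb : 0 < b) (hL : 1 ≤ b * L) (n : ℕ) :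
    ‖fj τ b L n‖ ≤ τ⁻¹ * (b * L)⁻¹ := by
  have hbL : 0 < b * L := by linarith
  have hL0 : (0 : ℝ) < L := by
    by_contra h
    have h1 : (L : ℝ) = 0 := le_antisymm (not_lt.mp h) (Nat.cast_nonneg L)
    rw [h1] at hbL
    simp at hbL
  have hL1 : 0 < L := by exact_mod_cast hL0
  have hB : 0 ≤ τ⁻¹ * (b * L)⁻¹ := by positivity
  rcases lt_or_ge ⌊b * L⌋₊ n with hn | hn
  · rw [fj_zero hL1 hn, norm_zero]
    exact hB
  · have hn1 : (n : ℝ) ≤ b * L := (Nat.le_floor_iff hbL.le).mp hn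
    have hF : 1 ≤ ⌊b * L⌋₊ := Nat.le_floor (by exact_mod_cast hL)
    have hF0 : (0 : ℝ) < (⌊b * L⌋₊ : ℝ) := by exact_mod_cast hF
    have hF1 : (⌊b * L⌋₊ : ℝ) ≤ b * L := Nat.floor_le hbL.le
    have hF2 : b * L < (⌊b * L⌋₊ : ℝ) + 1 := Nat.lt_floor_add_one _
    have hnF : (n : ℝ) ≤ (⌊b * L⌋₊ : ℝ) := by exact_mod_cast hn
    unfold fj ej RM.ed
    rw [if_pos (by rw [div_le_iff₀ hL0]; exact hn1), if_pos hn, ← Complex.ofReal_sub,
      Complex.norm_real, Real.norm_eq_abs]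
    refine (rp_lip hτ _ _).trans (mul_le_mul_of_nonneg_left ?_ (by positivity))
    have e1 : (n : ℝ) / L / b = n / (b * L) := by
      rw [div_div, mul_comm (L : ℝ) b]
    rw [e1, abs_sub_comm, abs_of_nonneg (sub_nonneg.mpr
      (div_le_div_of_nonneg_left (Nat.cast_nonneg n) hF0 hF1)), div_sub_div _ _ hF0.ne' hbL.ne',
      div_le_iff₀ (by positivity)]
    have e2 : (b * L)⁻¹ * ((⌊b * L⌋₊ : ℝ) * (b * L)) = (⌊b * L⌋₊ : ℝ) := by
      field_simp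
    rw [e2]
    have e3 : (n : ℝ) * (b * L) - (⌊b * L⌋₊ : ℝ) * n = n * (b * L - (⌊b * L⌋₊ : ℝ)) := by ring
    rw [e3]
    calc (n : ℝ) * (b * L - (⌊b * L⌋₊ : ℝ)) ≤ (⌊b * L⌋₊ : ℝ) * 1 :=
        mul_le_mul hnF (by linarith) (by linarith) hF0.le
      _ = _ := mul_one _

/-- moments of one jump -/
lemma one_jump (hG : RM.GTail) (hS : GSmall) (hL : GLen) (hM : MMSum) (q : ℕ) (k : ℝ) (hq : 1 ≤ q)
    (hk : 0 < k) (hk1 : (q : ℝ) - 1 < k) (hk2 : k ≤ q) : ∃ C : ℝ, 1 ≤ C ∧ ∀ τ : ℝ, 0 < τ → τ ≤ 1 →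
    ∃ K : ℝ, 1 ≤ K ∧ ∀ b : ℝ, 0 < b → b ≤ 1 → ∀ L : ℕ, K ≤ b * L →
    MM k (SG (ej τ b L) (Finset.Icc 1 L) L)
      ≤ ENNReal.ofReal (C * (τ ^ (k * (k - q + 1)) * (L : ℝ) ^ (k ^ 2))) := by
  obtain ⟨C1, hC1, h1⟩ := hG q k hq hk hk1 hk2
  obtain ⟨C2, hC2, h2⟩ := hS q k hq hk hk1 hk2
  obtain ⟨C3, hC3, h3⟩ := hM k 2 hk
  refine ⟨C3 * (C1 + C2), by nlinarith, fun τ hτ hτ1 => ?_⟩
  obtain ⟨L0, hL0⟩ := h1 τ hτ hτ1
  refine ⟨max ((L0 : ℝ) + 1) ((τ ^ 3)⁻¹),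
    (le_max_left _ _).trans' (by linarith [Nat.cast_nonneg (α := ℝ) L0]),
    fun b hb hb1 L hK => ?_⟩
  have hK1 : (L0 : ℝ) + 1 ≤ b * L := (le_max_left _ _).trans hK
  have hK2 : (τ ^ 3)⁻¹ ≤ b * L := (le_max_right _ _).trans hK
  have hbL : 1 ≤ b * L := by linarith [Nat.cast_nonneg (α := ℝ) L0]
  have hbL0 : 0 < b * L := by linarith
  have hLL : b * L ≤ L := by
    have := Nat.cast_nonneg (α := ℝ) L
    nlinarith
  have hLpos : (0 : ℝ) < L := by linarith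
  have hLp : 0 < L := by exact_mod_cast hLpos
  have hF : 1 ≤ ⌊b * L⌋₊ := Nat.le_floor (by exact_mod_cast hbL)
  have hFL : ⌊b * L⌋₊ ≤ L := Nat.floor_le_of_le hLL
  have hF0 : L0 ≤ ⌊b * L⌋₊ := Nat.le_floor (by linarith)
  have hF1 : (⌊b * L⌋₊ : ℝ) ≤ b * L := Nat.floor_le hbL0.le
  have hFL' : (⌊b * L⌋₊ : ℝ) ≤ L := by exact_mod_cast hFL
  have hδ : 0 < k * (k - q + 1) := mul_pos hk (by linarith)
  have hpow : (⌊b * L⌋₊ : ℝ) ^ (k ^ 2) ≤ (L : ℝ) ^ (k ^ 2) :=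
    Real.rpow_le_rpow (Nat.cast_nonneg _) hFL' (by positivity)
  -- the two parts
  have e1 : MM k (SG (RM.ed τ ⌊b * L⌋₊) (Finset.Icc 1 ⌊b * L⌋₊) ⌊b * L⌋₊)
      ≤ ENNReal.ofReal (C1 * (τ ^ (k * (k - q + 1)) * (L : ℝ) ^ (k ^ 2))) := by
    refine (hL0 _ hF0).trans (ENNReal.ofReal_le_ofReal ?_)
    refine mul_le_mul_of_nonneg_left ?_ (by linarith)
    exact mul_le_mul_of_nonneg_left hpow (by positivity)
  have e2 : MM k (SG (fj τ b L) (Finset.Icc 1 ⌊b * L⌋₊) ⌊b * L⌋₊)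
      ≤ ENNReal.ofReal (C2 * (τ ^ (k * (k - q + 1)) * (L : ℝ) ^ (k ^ 2))) := by
    refine (h2 (fj τ b L) ⌊b * L⌋₊ (τ⁻¹ * (b * L)⁻¹) hF (by positivity) (fj_at_zero hb)
      (fun n hn => fj_zero hLp hn) (fj_norm hτ hb hbL)).trans (ENNReal.ofReal_le_ofReal ?_)
    have h4 : (τ⁻¹ * (b * L)⁻¹) ^ 2 * (⌊b * L⌋₊ : ℝ) ≤ τ := by
      have h5 : (τ⁻¹ * (b * L)⁻¹) ^ 2 * (⌊b * L⌋₊ : ℝ) ≤ (τ⁻¹ * (b * L)⁻¹) ^ 2 * (b * L) :=
        mul_le_mul_of_nonneg_left hF1 (by positivity)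
      have h6 : (τ⁻¹ * (b * L)⁻¹) ^ 2 * (b * L) = (τ ^ 2)⁻¹ * (b * L)⁻¹ := by
        field_simp
      have h7 : (b * L)⁻¹ ≤ τ ^ 3 := by
        have := inv_anti₀ (by positivity) hK2
        rwa [inv_inv] at this
      have h8 : (τ ^ 2)⁻¹ * (b * L)⁻¹ ≤ (τ ^ 2)⁻¹ * τ ^ 3 :=
        mul_le_mul_of_nonneg_left h7 (by positivity)
      have h9 : (τ ^ 2)⁻¹ * τ ^ 3 = τ := by
        field_simp
      linarith
    have h10 : ((τ⁻¹ * (b * L)⁻¹) ^ 2 * (⌊b * L⌋₊ : ℝ)) ^ k ≤ τ ^ (k * (k - q + 1)) := by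
      refine (Real.rpow_le_rpow (by positivity) h4 hk.le).trans ?_
      refine Real.rpow_le_rpow_of_exponent_ge hτ hτ1 ?_
      have : k - q + 1 ≤ 1 := by linarith
      nlinarith
    calc C2 * ((τ⁻¹ * (b * L)⁻¹) ^ 2 * (⌊b * L⌋₊ : ℝ)) ^ k * (⌊b * L⌋₊ : ℝ) ^ (k ^ 2)
        = C2 * (((τ⁻¹ * (b * L)⁻¹) ^ 2 * (⌊b * L⌋₊ : ℝ)) ^ k * (⌊b * L⌋₊ : ℝ) ^ (k ^ 2)) := by ring
      _ ≤ C2 * (τ ^ (k * (k - q + 1)) * (L : ℝ) ^ (k ^ 2)) := by
          refine mul_le_mul_of_nonneg_left ?_ (by linarith)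
          exact mul_le_mul h10 hpow (by positivity) (by positivity)
  have e3 : ∀ z, SG (ej τ b L) (Finset.Icc 1 L) L z = ∑ j ∈ Finset.range 2,
      (fun j => if j = 0 then SG (RM.ed τ ⌊b * L⌋₊) (Finset.Icc 1 ⌊b * L⌋₊) ⌊b * L⌋₊
        else SG (fj τ b L) (Finset.Icc 1 ⌊b * L⌋₊) ⌊b * L⌋₊) j z := by
    intro z
    rw [hL (ej τ b L) L ⌊b * L⌋₊ hFL (fun n hn => ej_zero hLp hn) z, Finset.sum_range_succ,
      Finset.sum_range_one]
    simp only [if_true, one_ne_zero, if_false]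
    rw [← SG_add]
    congr 1
    funext n
    unfold fj
    ring
  have e4 : MM k (SG (ej τ b L) (Finset.Icc 1 L) L) = MM k (fun z => ∑ j ∈ Finset.range 2,
      (fun j => if j = 0 then SG (RM.ed τ ⌊b * L⌋₊) (Finset.Icc 1 ⌊b * L⌋₊) ⌊b * L⌋₊
        else SG (fj τ b L) (Finset.Icc 1 ⌊b * L⌋₊) ⌊b * L⌋₊) j z) := by
    congr 1
    funext z
    exact e3 z
  rw [e4]
  refine (h3 _ (fun j => ?_)).trans ?_
  · by_cases hj : j = 0
    · simp only [hj, if_true]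
      exact RM.continuous_SG _ _ _
    · simp only [hj, if_false]
      exact RM.continuous_SG _ _ _
  · rw [Finset.sum_range_succ, Finset.sum_range_one]
    simp only [if_true, one_ne_zero, if_false]
    refine (mul_le_mul_right (add_le_add e1 e2) _).trans (le_of_eq ?_)
    rw [← ENNReal.ofReal_add (by positivity) (by positivity), ← ENNReal.ofReal_mul (by linarith)]
    congr 1
    ring

end GDiffx

open GDiffx in
theorem gDiff (hG : RM.GTail) (hS : GSmall) (hL : GLen) (hM : MMSum) : GDiff := by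
  intro q k hq hk hk1 hk2 B Lam w0 m a b hW
  obtain ⟨C1, hC1, h1⟩ := one_jump hG hS hL hM q k hq hk hk1 hk2
  obtain ⟨C2, hC2, h2⟩ := hM k m hk
  have hA : 0 ≤ ∑ j ∈ Finset.range m, ‖a j‖ ^ (2 * k) := Finset.sum_nonneg fun j _ => by positivity
  refine ⟨C2 * ((∑ j ∈ Finset.range m, ‖a j‖ ^ (2 * k)) * C1) + 1, ?_, fun τ hτ hτ1 => ?_⟩
  · have : 0 ≤ C2 * ((∑ j ∈ Finset.range m, ‖a j‖ ^ (2 * k)) * C1) := by positivity
    linarith
  obtain ⟨K, hK, h3⟩ := h1 τ hτ hτ1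
  refine ⟨⌈K * ∑ j ∈ Finset.range m, (b j)⁻¹⌉₊, fun L hL0 => ?_⟩
  have hKL : K * ∑ j ∈ Finset.range m, (b j)⁻¹ ≤ L := Nat.ceil_le.mp hL0
  have hj : ∀ j ∈ Finset.range m, K ≤ b j * L := by
    intro j hj
    have h4 : (b j)⁻¹ ≤ ∑ j ∈ Finset.range m, (b j)⁻¹ :=
      Finset.single_le_sum (f := fun j => (b j)⁻¹) (fun i _ => (inv_pos.mpr (hW.pos i)).le) hj
    have h5 : K * (b j)⁻¹ ≤ L := (mul_le_mul_of_nonneg_left h4 (by linarith)).trans hKL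
    have h6 := mul_le_mul_of_nonneg_left h5 (hW.pos j).le
    have h7 : b j * (K * (b j)⁻¹) = K := by
      have := (hW.pos j).ne'
      field_simp
    rwa [h7] at h6
  have e1 : (SG (fun n => WJ w0 m a b ((n : ℝ) / L) - WT w0 m a b τ ((n : ℝ) / L))
      (Finset.Icc 1 L) L) = fun z => ∑ j ∈ Finset.range m,
        (fun j z => a j * SG (ej τ (b j) L) (Finset.Icc 1 L) L z) j z := by
    funext z
    rw [show (fun n : ℕ => WJ w0 m a b ((n : ℝ) / L) - WT w0 m a b τ ((n : ℝ) / L))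
      = fun n => ∑ j ∈ Finset.range m, a j * ej τ (b j) L n from
        funext fun n => diff w0 a b hτ hW.pos m L n]
    exact SG_sum (fun j => ej τ (b j) L) a _ _ _ z
  change MM k (SG (fun n => WJ w0 m a b ((n : ℝ) / L) - WT w0 m a b τ ((n : ℝ) / L))
      (Finset.Icc 1 L) L) ≤ _
  rw [e1]
  refine (h2 _ fun j => continuous_const.mul (RM.continuous_SG _ _ _)).trans ?_
  have e2 : ∑ j ∈ Finset.range m, MM k ((fun j z => a j * SG (ej τ (b j) L) (Finset.Icc 1 L) L z) j)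
      ≤ ENNReal.ofReal ((∑ j ∈ Finset.range m, ‖a j‖ ^ (2 * k)) * C1
        * (τ ^ (k * (k - q + 1)) * (L : ℝ) ^ (k ^ 2))) := by
    rw [mul_assoc, Finset.sum_mul, ENNReal.ofReal_sum_of_nonneg (fun j _ => by positivity)]
    refine Finset.sum_le_sum fun j hj' => ?_
    have e3 := MM_const k (a j) (SG (ej τ (b j) L) (Finset.Icc 1 L) L)
    change MM k (fun z => a j * SG (ej τ (b j) L) (Finset.Icc 1 L) L z) ≤ _
    rw [e3, ENNReal.ofReal_mul (by positivity)]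
    exact mul_le_mul_right (h3 (b j) (hW.pos j) (hW.le j) L (hj j hj')) _
  refine (mul_le_mul_right e2 _).trans ?_
  rw [← ENNReal.ofReal_mul (by linarith)]
  refine ENNReal.ofReal_le_ofReal ?_
  have hP : 0 ≤ τ ^ (k * (k - q + 1)) * (L : ℝ) ^ (k ^ 2) := by positivity
  nlinarith

end Pool.Agent.UFY
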