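import Pool.Agent.Lib.UFY.Defs

/-!
# UFY, row GLen: weights which vanish beyond `L'`
-/

set_option autoImplicit false

namespace Pool.Agent.UFY

open Pool.Agent.Lib
open Pool.Agent.Lib.RM (SG PG bx dg ee mem_bx mul_le_dg)

theorem gLen : GLen := by
  intro u L L' hL hu z
  unfold RM.SG RM.PG
  symm
  refine Finset.sum_subset ?_ ?_
  · intro α hα
    rw [mem_bx] at hα ⊢
    refine ⟨fun j hj => ?_, fun j _ => ?_⟩
    · have h1 := Finset.mem_Icc.mp (hα.1 hj)
      exact Finset.mem_Icc.mpr ⟨h1.1, h1.2.trans hL⟩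
    · by_cases h : α j = 0
      · omega
      · have h1 := hα.1 (Finsupp.mem_support_iff.mpr h)
        have h2 := hα.2 j h1
        omega
  · intro α hα hα'
    beta_reduce
    rw [hu (dg α), zero_mul]
    by_contra hle
    push Not at hle
    refine hα' (mem_bx.mpr ?_)
    rw [mem_bx] at hα
    have key : ∀ j, α j ≠ 0 → 1 ≤ j ∧ j ≤ L' ∧ α j ≤ L' := by
      intro j hj
      have h1 := Finset.mem_Icc.mp (hα.1 (Finsupp.mem_support_iff.mpr hj))
      have h2 := (mul_le_dg α j).trans hle
      have h3 : 1 ≤ α j := Nat.one_le_iff_ne_zero.mpr hj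
      refine ⟨h1.1, ?_, ?_⟩
      · nlinarith
      · nlinarith
    refine ⟨fun j hj => ?_, fun j _ => ?_⟩
    · obtain ⟨h1, h2, -⟩ := key j (Finsupp.mem_support_iff.mp hj)
      exact Finset.mem_Icc.mpr ⟨h1, h2⟩
    · by_cases h : α j = 0
      · omega
      · have := (key j h).2.2
        omega

end Pool.Agent.UFY
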