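import Pool.Agent.Lib.UFY.Defs

/-!
Small weights in the Gaussian model, row `GSmall`.

`Tel` at `y0 = L` with `C1 = 4 s^2 exp (2 q) L`: `‖f m - f n‖ ≤ 2 s`, and the sum of the weights of the
form of one level is at most `exp (q ∑_(y/2 < j ≤ L) 1/j) ≤ exp (2 q) (L/y)^q ≤ exp (2 q) L (L/y)^(q-1)`.
The sum over the empty set of indices is `f 0 = 0`.
-/

set_option autoImplicit false

namespace Pool.Agent.UFY

open MeasureTheory Set Filter Topology Complex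
open Pool.Agent.Lib
open Pool.Agent.Lib.RM (SG MM LF ww bx EX)

namespace GSmallx

private lemma harm_le (m n : ℕ) (h : m ≤ n) :
    ∑ j ∈ Finset.Ioc m n, (1 : ℝ) / j ≤ 1 + Real.log n - Real.log (m + 1) := by
  have h1 : ∀ k : ℕ, ∑ j ∈ Finset.Ioc 0 k, (1 : ℝ) / j = (harmonic k : ℝ) := by
    intro k
    rw [harmonic_eq_sum_Icc]
    push_cast
    refine Finset.sum_congr ?_ fun j _ => by rw [one_div]
    ext j
    simp [Finset.mem_Icc, Finset.mem_Ioc]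
    omega
  have h2 : ∑ j ∈ Finset.Ioc 0 m, (1 : ℝ) / j + ∑ j ∈ Finset.Ioc m n, (1 : ℝ) / j
      = ∑ j ∈ Finset.Ioc 0 n, (1 : ℝ) / j := Finset.sum_Ioc_consecutive _ (Nat.zero_le m) h
  rw [h1, h1] at h2
  have h3 := harmonic_le_one_add_log n
  have h4 := log_add_one_le_harmonic m
  push_cast at h4
  linarith

/-- the weights of one level -/
private lemma level (q : ℕ) (L : ℕ) (hL : 1 ≤ L) (M : ℕ) (y : ℝ) (hy : 1 ≤ y) (hyL : y ≤ L) :
    (∑ α ∈ bx (Finset.Ioc ⌊y / 2⌋₊ ⌊y⌋₊) M, ww q α) * (∑ β ∈ bx (Finset.Ioc ⌊y⌋₊ L) (L + 1), ww q β)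
      ≤ Real.exp (2 * q) * ((L : ℝ) / y) ^ q := by
  have hy0 : 0 < y := by linarith
  have hL0 : (0 : ℝ) < L := by exact_mod_cast hL
  have hyf : ⌊y⌋₊ ≤ L := Nat.floor_le_of_le hyL
  have hyh : ⌊y / 2⌋₊ ≤ ⌊y⌋₊ := Nat.floor_le_floor (by linarith)
  have h1 := RM.sum_ww_le (Finset.Ioc ⌊y / 2⌋₊ ⌊y⌋₊) (s := (q : ℝ)) (Nat.cast_nonneg q)
    (bx (Finset.Ioc ⌊y / 2⌋₊ ⌊y⌋₊) M) (fun α hα => (RM.mem_bx.1 hα).1)
  have h2 := RM.sum_ww_le (Finset.Ioc ⌊y⌋₊ L) (s := (q : ℝ)) (Nat.cast_nonneg q)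
    (bx (Finset.Ioc ⌊y⌋₊ L) (L + 1)) (fun α hα => (RM.mem_bx.1 hα).1)
  have h3 : (∑ α ∈ bx (Finset.Ioc ⌊y / 2⌋₊ ⌊y⌋₊) M, ww q α) *
      (∑ β ∈ bx (Finset.Ioc ⌊y⌋₊ L) (L + 1), ww q β) ≤
      Real.exp (∑ j ∈ Finset.Ioc ⌊y / 2⌋₊ ⌊y⌋₊, (q : ℝ) / j) *
      Real.exp (∑ j ∈ Finset.Ioc ⌊y⌋₊ L, (q : ℝ) / j) :=
    mul_le_mul h1 h2 (Finset.sum_nonneg fun β _ => RM.ww_nonneg (Nat.cast_nonneg q) β)
      (Real.exp_pos _).le
  refine h3.trans ?_
  rw [← Real.exp_add, Finset.sum_Ioc_consecutive _ hyh hyf]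
  have h4 : ∑ j ∈ Finset.Ioc ⌊y / 2⌋₊ L, (q : ℝ) / j = q * ∑ j ∈ Finset.Ioc ⌊y / 2⌋₊ L, (1 : ℝ) / j := by
    rw [Finset.mul_sum]
    refine Finset.sum_congr rfl fun j _ => ?_
    ring
  have h5 := harm_le ⌊y / 2⌋₊ L (hyh.trans hyf)
  have h6 : Real.log (y / 2) ≤ Real.log ((⌊y / 2⌋₊ : ℝ) + 1) :=
    Real.log_le_log (by positivity) (Nat.lt_floor_add_one (y / 2)).le
  have h7 : Real.log 2 ≤ 1 := by
    have := Real.log_two_lt_d9
    linarith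
  have h8 : ∑ j ∈ Finset.Ioc ⌊y / 2⌋₊ L, (1 : ℝ) / j ≤ 2 + Real.log (L / y) := by
    rw [Real.log_div hL0.ne' hy0.ne']
    rw [Real.log_div hy0.ne' (by norm_num)] at h6
    linarith
  rw [h4]
  calc Real.exp (q * ∑ j ∈ Finset.Ioc ⌊y / 2⌋₊ L, (1 : ℝ) / j)
      ≤ Real.exp (q * (2 + Real.log (L / y))) :=
        Real.exp_le_exp.mpr (mul_le_mul_of_nonneg_left h8 (Nat.cast_nonneg q))
    _ = Real.exp (2 * q) * ((L : ℝ) / y) ^ q := by
        rw [mul_add, Real.exp_add, mul_comm (q : ℝ) 2, Real.exp_nat_mul, Real.exp_log (div_pos hL0 hy0)]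

/-- the sum over no indices -/
private lemma empty (f : ℕ → ℂ) (L : ℕ) (h0 : f 0 = 0) (z : ℕ → ℂ) :
    SG f (Finset.Ioc L L) L z = 0 := by
  unfold SG RM.PG
  refine Finset.sum_eq_zero fun α hα => ?_
  have h1 := (RM.mem_bx.1 hα).1
  rw [Finset.Ioc_self] at h1
  have h2 : α = 0 := by
    rw [← Finsupp.support_eq_empty]
    exact Finset.subset_empty.mp h1
  simp only [h2, RM.dg_zero, h0, zero_mul]

end GSmallx

open GSmallx

theorem gSmall (hT : RM.Tel) : GSmall := by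
  intro q k hq hk hqk hkq
  obtain ⟨C, hC, h⟩ := hT q k hq hk hqk hkq
  have hE : 1 ≤ (4 * Real.exp (2 * q)) ^ k := by
    refine Real.one_le_rpow ?_ hk.le
    have := Real.one_le_exp (x := 2 * q) (by positivity)
    linarith
  refine ⟨C * (4 * Real.exp (2 * q)) ^ k, ?_, ?_⟩
  · calc (1 : ℝ) = 1 * 1 := (mul_one 1).symm
      _ ≤ C * (4 * Real.exp (2 * q)) ^ k := mul_le_mul hC hE zero_le_one (by linarith)
  intro f L s hL hs hf0 hfL hfs
  have hL0 : (0 : ℝ) < L := by exact_mod_cast hL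
  have hL1 : (1 : ℝ) ≤ L := by exact_mod_cast hL
  have h1 := h f L L (4 * Real.exp (2 * q) * (s ^ 2 * L)) hfL hL1 le_rfl (by positivity) (by
    intro M y hy hyL
    have hy0 : 0 < y := by linarith
    have h2 : LF q f L M y ≤ 4 * s ^ 2 * ((∑ α ∈ bx (Finset.Ioc ⌊y / 2⌋₊ ⌊y⌋₊) M, ww q α) *
        (∑ β ∈ bx (Finset.Ioc ⌊y⌋₊ L) (L + 1), ww q β)) := by
      unfold LF
      rw [Finset.sum_mul_sum, Finset.mul_sum]
      refine Finset.sum_le_sum fun α _ => ?_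
      rw [Finset.mul_sum]
      refine Finset.sum_le_sum fun β _ => ?_
      refine mul_le_mul_of_nonneg_right ?_ (mul_nonneg (RM.ww_nonneg (Nat.cast_nonneg q) α)
        (RM.ww_nonneg (Nat.cast_nonneg q) β))
      have h3 : ‖f (RM.dg α + RM.dg β) - f (RM.dg β)‖ ≤ 2 * s := by
        refine (norm_sub_le _ _).trans ?_
        have := hfs (RM.dg α + RM.dg β)
        have := hfs (RM.dg β)
        linarith
      calc ‖f (RM.dg α + RM.dg β) - f (RM.dg β)‖ ^ 2 ≤ (2 * s) ^ 2 :=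
            pow_le_pow_left₀ (norm_nonneg _) h3 2
        _ = 4 * s ^ 2 := by ring
    have h4 := level q L hL M y hy hyL
    have h5 : ((L : ℝ) / y) ^ q ≤ L * ((L : ℝ) / y) ^ (q - 1) := by
      obtain ⟨p, rfl⟩ : ∃ p, q = p + 1 := ⟨q - 1, by omega⟩
      rw [pow_succ', Nat.add_sub_cancel]
      exact mul_le_mul_of_nonneg_right (div_le_self hL0.le hy) (by positivity)
    calc LF q f L M y ≤ _ := h2
      _ ≤ 4 * s ^ 2 * (Real.exp (2 * q) * ((L : ℝ) / y) ^ q) :=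
          mul_le_mul_of_nonneg_left h4 (by positivity)
      _ ≤ 4 * s ^ 2 * (Real.exp (2 * q) * (L * ((L : ℝ) / y) ^ (q - 1))) := by
          refine mul_le_mul_of_nonneg_left (mul_le_mul_of_nonneg_left h5 (Real.exp_pos _).le)
            (by positivity)
      _ = 4 * Real.exp (2 * q) * (s ^ 2 * L) * ((L : ℝ) / y) ^ (q - 1) := by ring)
  have h6 : (fun z => SG f (Finset.Icc 1 L) L z
      - EX (Finset.Icc 1 ⌊(L : ℝ)⌋₊) z * SG f (Finset.Ioc ⌊(L : ℝ)⌋₊ L) L z)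
      = SG f (Finset.Icc 1 L) L := by
    funext z
    rw [Nat.floor_natCast, empty f L hf0, mul_zero, sub_zero]
  rw [h6] at h1
  refine h1.trans (ENNReal.ofReal_le_ofReal (le_of_eq ?_))
  rw [div_self hL0.ne', Real.one_rpow, mul_one, Real.mul_rpow (by positivity) (by positivity)]
  ring

end Pool.Agent.UFY
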