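import Mathlib
import Pool.Agent.Lib.UFY.Defs

/-!
# Weights with jumps: the Gaussian model, the limit is the limit of the limits
-/

set_option autoImplicit false

namespace Pool.Agent.UFY

open MeasureTheory ProbabilityTheory Set Filter Topology Complex
open Pool.Agent.Lib
open Pool.Agent.Lib.MS (MVP ZS)
open Pool.Agent.Lib.RM (SG MM GLm NT Gm PG Orth bx dg mem_bx continuous_SG)
open scoped ComplexConjugate

namespace GTox

private lemma cont_pow {F : (ℕ → ℂ) → ℂ} (hF : Continuous F) {k : ℝ} (hk : 0 < k) :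
    Continuous fun z => ‖F z‖ ^ (2 * k) :=
  hF.norm.rpow_const fun _ => Or.inr (by positivity)

private lemma int_of_MM {F : (ℕ → ℂ) → ℂ} (hF : Continuous F) {k c : ℝ} (hk : 0 < k) (hc : 0 ≤ c)
    (h : MM k F ≤ ENNReal.ofReal c) :
    Integrable (fun z => ‖F z‖ ^ (2 * k)) Gm ∧ ∫ z, ‖F z‖ ^ (2 * k) ∂Gm ≤ c := by
  have h0 : ∀ z, 0 ≤ ‖F z‖ ^ (2 * k) := fun z => by positivity
  have hm : AEStronglyMeasurable (fun z => ‖F z‖ ^ (2 * k)) Gm :=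
    (cont_pow hF hk).aestronglyMeasurable
  constructor
  · refine ⟨hm, ?_⟩
    rw [hasFiniteIntegral_iff_ofReal (Eventually.of_forall h0)]
    exact lt_of_le_of_lt h ENNReal.ofReal_lt_top
  · rw [integral_eq_lintegral_of_nonneg_ae (Eventually.of_forall h0) hm]
    exact ENNReal.toReal_le_of_le_ofReal hc h

private lemma int_SG (hO : Orth) (u : ℕ → ℂ) (D : Finset ℕ) (hD : 0 ∉ D) (L : ℕ) {k : ℝ}
    (hk : 0 < k) : Integrable (fun z => ‖SG u D L z‖ ^ (2 * k)) Gm := by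
  refine (hO (bx D (L + 1)) fun α hα => ?_).1 (fun α => u (dg α)) (2 * k) (by positivity)
  by_contra h
  exact hD ((mem_bx.mp hα).1 (Finsupp.mem_support_iff.mpr h))

private lemma split (u v : ℕ → ℂ) (L : ℕ) (z : ℕ → ℂ) :
    SG v (Finset.Icc 1 L) L z - SG u (Finset.Icc 1 L) L z
      = -SG (fun n => u n - v n) (Finset.Icc 1 L) L z := by
  unfold SG PG
  rw [← Finset.sum_sub_distrib, ← Finset.sum_neg_distrib]
  refine Finset.sum_congr rfl fun α _ => ?_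
  ring

end GTox

open GTox

/-- GTo -/
theorem gTo (hP : MT.PowIneq) (hO : Orth) : GTo := by
  intro k δ C u v hk hδ hC hcl h hh hhh hlim
  have hs' : 0 < 2 * k := by linarith
  -- one value of the parameter
  have key : ∀ (η C' : ℝ), 0 ≤ C' → (∀ x y : ℂ, |‖x‖ ^ (2 * k) - ‖y‖ ^ (2 * k)|
        ≤ η * ‖x‖ ^ (2 * k) + C' * ‖x - y‖ ^ (2 * k)) → ∀ τ : ℝ, 0 < τ → τ ≤ 1 → ∃ L0 : ℕ,
      ∀ L : ℕ, L0 ≤ L → ∃ a : ℝ,
        a = (∫ z, ‖SG (v τ L) (Finset.Icc 1 L) L z‖ ^ (2 * k) ∂Gm) / (L : ℝ) ^ (k ^ 2) ∧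
        |(∫ z, ‖SG (u L) (Finset.Icc 1 L) L z‖ ^ (2 * k) ∂Gm) / (L : ℝ) ^ (k ^ 2) - a|
          ≤ η * a + C' * (C * τ ^ δ) := by
    intro η C' hC' hη τ h0 h1
    obtain ⟨L0, hL0⟩ := hcl τ h0 h1
    refine ⟨max L0 1, fun L hL => ⟨_, rfl, ?_⟩⟩
    have hL1 : 1 ≤ L := (le_max_right _ _).trans hL
    have hLp : (0 : ℝ) < L := by exact_mod_cast hL1
    have hLk : 0 < (L : ℝ) ^ (k ^ 2) := Real.rpow_pos_of_pos hLp _
    have ht := hL0 L ((le_max_left _ _).trans hL)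
    have i1 : Integrable (fun z => ‖SG (v τ L) (Finset.Icc 1 L) L z‖ ^ (2 * k)) Gm :=
      int_SG hO _ _ (by simp) L hk
    have i2 : Integrable (fun z => ‖SG (u L) (Finset.Icc 1 L) L z‖ ^ (2 * k)) Gm :=
      int_SG hO _ _ (by simp) L hk
    obtain ⟨i3, m3⟩ := int_of_MM
      (continuous_SG (fun n => u L n - v τ L n) (Finset.Icc 1 L) L) hk
      (by positivity : 0 ≤ C * (τ ^ δ * (L : ℝ) ^ (k ^ 2))) ht
    obtain ⟨IW, hIW⟩ : ∃ x, x = ∫ z, ‖SG (v τ L) (Finset.Icc 1 L) L z‖ ^ (2 * k) ∂Gm := ⟨_, rfl⟩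
    obtain ⟨IS, hIS⟩ : ∃ x, x = ∫ z, ‖SG (u L) (Finset.Icc 1 L) L z‖ ^ (2 * k) ∂Gm := ⟨_, rfl⟩
    obtain ⟨IE, hIE⟩ : ∃ x, x = ∫ z, ‖SG (fun n => u L n - v τ L n) (Finset.Icc 1 L) L z‖
      ^ (2 * k) ∂Gm := ⟨_, rfl⟩
    have c1 : |IW - IS| ≤ η * IW + C' * IE := by
      rw [hIW, hIS, hIE, ← integral_sub i1 i2, ← integral_const_mul, ← integral_const_mul,
        ← integral_add (i1.const_mul _) (i3.const_mul _)]
      refine (abs_integral_le_integral_abs).trans ?_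
      refine integral_mono (i1.sub i2).abs ((i1.const_mul _).add (i3.const_mul _)) fun z => ?_
      have := hη (SG (v τ L) (Finset.Icc 1 L) L z) (SG (u L) (Finset.Icc 1 L) L z)
      rwa [split, norm_neg] at this
    rw [← hIE] at m3
    rw [← hIW, ← hIS, ← sub_div, abs_div, abs_of_pos hLk, div_le_iff₀ hLk, abs_sub_comm]
    calc |IW - IS| ≤ η * IW + C' * IE := c1
      _ ≤ η * IW + C' * (C * (τ ^ δ * (L : ℝ) ^ (k ^ 2))) := by gcongr
      _ = _ := by field_simp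
  -- the limit
  unfold GLm
  rw [Metric.tendsto_atTop]
  intro ε hε
  obtain ⟨η, hη⟩ : ∃ η : ℝ, η = ε / (8 * (|h| + 1)) := ⟨_, rfl⟩
  have hT1 : 0 < |h| + 1 := by positivity
  have hη0 : 0 < η := by rw [hη]; positivity
  obtain ⟨C', hC', hpow⟩ := hP (2 * k) η hs' hη0
  have e1 : Tendsto (fun τ : ℝ => C' * (C * τ ^ δ)) (𝓝[>] 0) (𝓝 0) := by
    have h1 : Tendsto (fun τ : ℝ => C' * (C * τ ^ δ)) (𝓝 0) (𝓝 (C' * (C * 0 ^ δ))) := by
      refine Tendsto.const_mul _ (Tendsto.const_mul _ ?_)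
      exact tendsto_id.rpow_const (Or.inr hδ.le)
    rw [Real.zero_rpow hδ.ne', mul_zero, mul_zero] at h1
    exact h1.mono_left nhdsWithin_le_nhds
  have e2 : ∀ᶠ τ : ℝ in 𝓝[>] 0, C' * (C * τ ^ δ) < ε / 8 :=
    e1.eventually_lt_const (by positivity)
  have e3 : ∀ᶠ τ : ℝ in 𝓝[>] 0, |hh τ - h| < min (ε / 8) (1 / 2) := by
    have := (Metric.tendsto_nhds.mp hlim) (min (ε / 8) (1 / 2)) (by positivity)
    simpa [Real.dist_eq] using this
  have e4 : ∀ᶠ τ : ℝ in 𝓝[>] 0, 0 < τ ∧ τ ≤ 1 := by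
    have h1 : Ioo (0 : ℝ) 1 ∈ 𝓝[>] (0 : ℝ) := Ioo_mem_nhdsGT one_pos
    filter_upwards [h1] with τ hτ
    exact ⟨hτ.1, hτ.2.le⟩
  obtain ⟨τ, h2, h3, h4, h5⟩ := (e2.and (e3.and e4)).exists
  obtain ⟨L0, hL0⟩ := key η C' hC' hpow τ h4 h5
  obtain ⟨L1, hL1⟩ := (Metric.tendsto_atTop.mp (hhh τ h4 h5)) (min (ε / 8) (1 / 2)) (by positivity)
  refine ⟨max L0 L1, fun L hL => ?_⟩
  obtain ⟨a, ha, h9⟩ := hL0 L ((le_max_left _ _).trans hL)
  have h8 := hL1 L ((le_max_right _ _).trans hL)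
  rw [← ha, Real.dist_eq] at h8
  have h11 : |a - hh τ| ≤ ε / 8 := h8.le.trans (min_le_left _ _)
  have h12 : |a - hh τ| ≤ 1 / 2 := h8.le.trans (min_le_right _ _)
  have h13 : |hh τ - h| ≤ ε / 8 := h3.le.trans (min_le_left _ _)
  have h14 : |hh τ - h| ≤ 1 / 2 := h3.le.trans (min_le_right _ _)
  have h15 : a ≤ |h| + 1 := by
    have h16 := (abs_le.mp h12).2
    have h17 := (abs_le.mp h14).2
    have h18 := le_abs_self h
    linarith
  have h16 : η * a ≤ ε / 8 := by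
    calc η * a ≤ η * (|h| + 1) := mul_le_mul_of_nonneg_left h15 hη0.le
      _ = ε / 8 := by rw [hη]; field_simp
  rw [Real.dist_eq]
  have h17 := abs_sub_le ((∫ z, ‖SG (u L) (Finset.Icc 1 L) L z‖
    ^ (2 * k) ∂Gm) / (L : ℝ) ^ (k ^ 2)) a h
  have h18 := abs_sub_le a (hh τ) h
  linarith

end Pool.Agent.UFY
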