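import Pool.Agent.Lib.UFY.Defs

/-!
# UFY, row KLip: the constant for Lipschitz weights (helper69)

After `rm/Fin.lean`.
-/

set_option autoImplicit false

namespace Pool.Agent.UFY

open MeasureTheory Set Filter Topology Complex
open Pool.Agent.Lib
open Pool.Agent.Lib.RM (GLm NT wc rp AI VLimX ArLim EllX GMain OneEq ConstX)

namespace KLipx

lemma rp_nonneg (τ x : ℝ) : 0 ≤ rp τ x := le_max_left _ _

lemma rp_le_one (τ x : ℝ) : rp τ x ≤ 1 := max_le zero_le_one (min_le_left _ _)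

lemma rp_zero {τ : ℝ} (h0 : 0 < τ) (h1 : τ ≤ 1) : rp τ 0 = 0 := by
  unfold RM.rp
  refine max_eq_left ((min_le_right _ _).trans ?_)
  exact div_nonpos_of_nonpos_of_nonneg (by linarith) h0.le

lemma rp_one {τ x : ℝ} (h0 : 0 < τ) (hx : 1 ≤ x) : rp τ x = 1 := by
  unfold RM.rp
  have h1 : 1 ≤ (x - (1 - τ)) / τ := by
    rw [le_div_iff₀ h0]
    linarith
  rw [min_eq_left h1]
  exact max_eq_right zero_le_one

lemma rp_lip {τ : ℝ} (h0 : 0 < τ) (x y : ℝ) : |rp τ x - rp τ y| ≤ 1 / τ * |x - y| := by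
  unfold RM.rp
  have h1 : |max 0 (min 1 ((x - (1 - τ)) / τ)) - max 0 (min 1 ((y - (1 - τ)) / τ))|
      ≤ |min 1 ((x - (1 - τ)) / τ) - min 1 ((y - (1 - τ)) / τ)| := by
    have h := abs_max_sub_max_le_max 0 (min 1 ((x - (1 - τ)) / τ)) 0 (min 1 ((y - (1 - τ)) / τ))
    rwa [sub_self, abs_zero, max_eq_right (abs_nonneg (min 1 ((x - (1 - τ)) / τ)
      - min 1 ((y - (1 - τ)) / τ)))] at h
  have h2 : |min 1 ((x - (1 - τ)) / τ) - min 1 ((y - (1 - τ)) / τ)|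
      ≤ |(x - (1 - τ)) / τ - (y - (1 - τ)) / τ| := by
    have h := abs_min_sub_min_le_max 1 ((x - (1 - τ)) / τ) 1 ((y - (1 - τ)) / τ)
    rwa [sub_self, abs_zero, max_eq_right (abs_nonneg ((x - (1 - τ)) / τ
      - (y - (1 - τ)) / τ))] at h
  refine h1.trans (h2.trans (le_of_eq ?_))
  rw [← sub_div, abs_div, abs_of_pos h0]
  rw [show x - (1 - τ) - (y - (1 - τ)) = x - y by ring]
  ring

lemma wc_cut {τ : ℝ} (h0 : 0 < τ) : MT.CutC 1 (1 / τ) (wc τ) where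
  bd x := by
    unfold RM.wc
    rw [Complex.norm_real, Real.norm_eq_abs, abs_of_nonneg (by linarith [rp_le_one τ x])]
    linarith [rp_nonneg τ x]
  lip x y := by
    unfold RM.wc
    rw [← Complex.ofReal_sub, Complex.norm_real, Real.norm_eq_abs,
      show 1 - rp τ x - (1 - rp τ y) = -(rp τ x - rp τ y) by ring, abs_neg]
    exact rp_lip h0 x y
  zero x hx := by
    unfold RM.wc
    rw [rp_one h0 hx]
    simp

lemma wc_zero {τ : ℝ} (h0 : 0 < τ) (h1 : τ ≤ 1) : wc τ 0 = 1 := by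
  unfold RM.wc
  rw [rp_zero h0 h1]
  simp

lemma ak_one : NL.ak 1 = 1 := by
  unfold NL.ak
  have h : ∀ p : Nat.Primes, (1 - (((p : ℕ) : ℝ))⁻¹) ^ ((1 : ℝ) ^ 2) * NL.Fi 1 (((p : ℕ) : ℝ))⁻¹ = 1 := by
    intro p
    have h1 := NL.prime_inv_le p.2
    have h2 : 0 ≤ (((p : ℕ) : ℝ))⁻¹ := by positivity
    rw [NL.Fi_at_one h2 h1, one_pow, Real.rpow_one, mul_inv_cancel₀ (by linarith)]
  rw [tprod_congr h]
  exact tprod_one

end KLipx

open KLipx

theorem kLip (hL : MT.LimEx) (hC : ConstX)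
    (hEX : ∀ M0 M1 : ℝ, VLimX M0 → ArLim M0 M1 → EllX M1) (hG : GMain) (hO : OneEq) : KLip := by
  obtain ⟨M0, M1, hV, hA⟩ := hC
  have hE : EllX M1 := hEX M0 M1 hV hA
  have hGG : ∀ (k B Lam c : ℝ) (w : ℝ → ℂ), 0 < k → MT.CutC B Lam w → w 0 = 1 → NT k w c →
      GLm k (fun L n => w ((n : ℝ) / L))
        (Real.exp (k ^ 2 * Real.eulerMascheroniConstant) * (c / AI M1 k)) :=
    fun k B Lam c w hk hw h0 h => hG k B Lam w hk hw h0 _ (hE k B Lam w hk hw h0 c h)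
  -- the constant of Mertens
  have hM1 : M1 = Real.eulerMascheroniConstant := by
    have h12 : (0 : ℝ) < 1 / 2 := by norm_num
    obtain ⟨c, -, -, h1⟩ := hL 1 1 (1 / (1 / 2)) (wc (1 / 2)) one_pos (wc_cut h12)
      (wc_zero h12 (by norm_num))
    obtain ⟨h2, h3⟩ := hO _ _ h1
      (hGG 1 1 (1 / (1 / 2)) _ _ one_pos (wc_cut h12) (wc_zero h12 (by norm_num)) h1)
    unfold RM.AI at h2
    rw [ak_one, one_mul, one_pow, one_mul, one_mul] at h2
    have h5 := (Real.exp_pos M1).ne'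
    field_simp at h2
    exact Real.exp_injective h2
  intro k B Lam w hk hw h0 c hc
  have h := hGG k B Lam c w hk hw h0 hc
  obtain ⟨N, hN⟩ : ∃ N : ℕ, N = ⌈k⌉₊ := ⟨_, rfl⟩
  have hN1 : 1 ≤ N := by rw [hN]; exact Nat.one_le_ceil_iff.mpr hk
  have hNk : k ≤ N := by rw [hN]; exact Nat.le_ceil k
  have hak : 0 < NL.ak k := NL.ak_pos hN1 hk.le hNk
  have e : Real.exp (k ^ 2 * Real.eulerMascheroniConstant) * (c / AI M1 k) = c / NL.ak k := by
    unfold RM.AI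
    rw [hM1]
    have h5 := (Real.exp_pos (k ^ 2 * Real.eulerMascheroniConstant)).ne'
    field_simp
  rwa [e] at h

end Pool.Agent.UFY
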