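import Pool.Agent.Lib.UFY.Defs

/-!
# UFY, row MMSum: moments of sums
-/

set_option autoImplicit false

namespace Pool.Agent.UFY

open MeasureTheory
open Pool.Agent.Lib
open Pool.Agent.Lib.RM (MM)

theorem mmSum (hP : RM.PowS) : MMSum := by
  intro k m hk
  obtain ⟨C0, hC0, hpow⟩ := hP (2 * k) 1 (by positivity) one_pos
  refine ⟨C0 * 2 ^ m, ?_, fun F hF => ?_⟩
  · have h1 : (1 : ℝ) ≤ 2 ^ m := one_le_pow₀ (by norm_num)
    nlinarith
  have hpt : ∀ z : ℕ → ℂ, ENNReal.ofReal (‖∑ j ∈ Finset.range m, F j z‖ ^ (2 * k))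
      ≤ ENNReal.ofReal (C0 * 2 ^ m) * ∑ j ∈ Finset.range m, ENNReal.ofReal (‖F j z‖ ^ (2 * k)) := by
    intro z
    rw [← ENNReal.ofReal_sum_of_nonneg fun j _ => by positivity,
      ← ENNReal.ofReal_mul (by positivity)]
    refine ENNReal.ofReal_le_ofReal ((hpow m fun j => F j z).trans ?_)
    rw [mul_assoc]
    refine mul_le_mul_of_nonneg_left ?_ (by linarith)
    rw [Finset.mul_sum]
    refine Finset.sum_le_sum fun j hj => mul_le_mul_of_nonneg_right ?_ (by positivity)
    rw [one_mul, Real.rpow_natCast]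
    exact pow_le_pow_right₀ (by norm_num) (Finset.mem_range.mp hj).le
  have hmeas : ∀ j ∈ Finset.range m, Measurable fun z => ENNReal.ofReal (‖F j z‖ ^ (2 * k)) :=
    fun j _ => (((hF j).norm.rpow_const fun _ => Or.inr (by positivity)).measurable).ennreal_ofReal
  unfold RM.MM
  refine (lintegral_mono hpt).trans (le_of_eq ?_)
  rw [lintegral_const_mul _ (Finset.measurable_fun_sum _ hmeas), lintegral_finsetSum _ hmeas]

end Pool.Agent.UFY
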