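import Pool.Agent.Lib.UFY.Defs

/-!
UFY, row NCut: the smoothed weight is Lipschitz.
-/

set_option autoImplicit false

namespace Pool.Agent.UFY

open MeasureTheory Set Filter Topology Complex
open Pool.Agent.Lib
open Pool.Agent.Lib.RM (rp wc)

namespace NCutx

theorem rp_nonneg (τ x : ℝ) : 0 ≤ rp τ x := le_max_left _ _

theorem rp_le_one (τ x : ℝ) : rp τ x ≤ 1 := max_le zero_le_one (min_le_left _ _)

theorem rp_zero {τ : ℝ} (h0 : 0 < τ) (h1 : τ ≤ 1) : rp τ 0 = 0 := by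
  unfold rp
  refine max_eq_left ((min_le_right _ _).trans ?_)
  exact div_nonpos_of_nonpos_of_nonneg (by linarith) h0.le

theorem rp_one {τ x : ℝ} (h0 : 0 < τ) (hx : 1 ≤ x) : rp τ x = 1 := by
  unfold rp
  have h1 : 1 ≤ (x - (1 - τ)) / τ := by
    rw [le_div_iff₀ h0]
    linarith
  rw [min_eq_left h1]
  exact max_eq_right zero_le_one

theorem rp_lip {τ : ℝ} (h0 : 0 < τ) (x y : ℝ) : |rp τ x - rp τ y| ≤ 1 / τ * |x - y| := by
  unfold rp
  have h1 : |max 0 (min 1 ((x - (1 - τ)) / τ)) - max 0 (min 1 ((y - (1 - τ)) / τ))|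
      ≤ |min 1 ((x - (1 - τ)) / τ) - min 1 ((y - (1 - τ)) / τ)| := by
    have h := abs_max_sub_max_le_max 0 (min 1 ((x - (1 - τ)) / τ)) 0 (min 1 ((y - (1 - τ)) / τ))
    rwa [sub_self, abs_zero, max_eq_right (abs_nonneg (min 1 ((x - (1 - τ)) / τ)
      - min 1 ((y - (1 - τ)) / τ)))] at h
  have h2 : |min 1 ((x - (1 - τ)) / τ) - min 1 ((y - (1 - τ)) / τ)|
      ≤ |(x - (1 - τ)) / τ - (y - (1 - τ)) / τ| := by
    have h := abs_min_sub_min_le_max 1 ((x - (1 - τ)) / τ) 1 ((y - (1 - τ)) / τ)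
    rwa [sub_self, abs_zero, max_eq_right (abs_nonneg ((x - (1 - τ)) / τ
      - (y - (1 - τ)) / τ))] at h
  refine h1.trans (h2.trans (le_of_eq ?_))
  rw [← sub_div, abs_div, abs_of_pos h0]
  rw [show x - (1 - τ) - (y - (1 - τ)) = x - y by ring]
  ring

theorem wc_cut {τ : ℝ} (h0 : 0 < τ) : MT.CutC 1 (1 / τ) (wc τ) where
  bd x := by
    unfold wc
    rw [Complex.norm_real, Real.norm_eq_abs, abs_of_nonneg (by linarith [rp_le_one τ x])]
    linarith [rp_nonneg τ x]
  lip x y := by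
    unfold wc
    rw [← Complex.ofReal_sub, Complex.norm_real, Real.norm_eq_abs,
      show 1 - rp τ x - (1 - rp τ y) = -(rp τ x - rp τ y) by ring, abs_neg]
    exact rp_lip h0 x y
  zero x hx := by
    unfold wc
    rw [rp_one h0 hx]
    simp

theorem wc_zero {τ : ℝ} (h0 : 0 < τ) (h1 : τ ≤ 1) : wc τ 0 = 1 := by
  unfold wc
  rw [rp_zero h0 h1]
  simp

end NCutx

open NCutx in
theorem nCut : NCut := by
  intro B Lam w0 n a b hw τ h0 h1
  have hc := wc_cut h0
  refine ⟨⟨B + ∑ j ∈ Finset.range n, ‖a j‖,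
    Lam + ∑ j ∈ Finset.range n, ‖a j‖ * (1 / τ * (1 / b j)), ?_, ?_, ?_⟩, ?_⟩
  · intro x
    unfold WT
    refine (norm_add_le _ _).trans (add_le_add (hw.cut.bd x) ?_)
    refine (norm_sum_le _ _).trans (Finset.sum_le_sum fun j _ => ?_)
    rw [norm_mul]
    exact mul_le_of_le_one_right (norm_nonneg _) (hc.bd _)
  · intro x y
    unfold WT
    have e : w0 x + ∑ j ∈ Finset.range n, a j * wc τ (x / b j) -
        (w0 y + ∑ j ∈ Finset.range n, a j * wc τ (y / b j)) = (w0 x - w0 y) +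
        ∑ j ∈ Finset.range n, a j * (wc τ (x / b j) - wc τ (y / b j)) := by
      simp only [mul_sub, Finset.sum_sub_distrib]
      ring
    rw [e, add_mul, Finset.sum_mul]
    refine (norm_add_le _ _).trans (add_le_add (hw.cut.lip x y) ?_)
    refine (norm_sum_le _ _).trans (Finset.sum_le_sum fun j _ => ?_)
    rw [norm_mul, mul_assoc]
    refine mul_le_mul_of_nonneg_left ?_ (norm_nonneg _)
    refine (hc.lip _ _).trans (le_of_eq ?_)
    rw [← sub_div, abs_div, abs_of_pos (hw.pos j)]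
    ring
  · intro x hx
    unfold WT
    rw [hw.cut.zero x hx, zero_add]
    refine Finset.sum_eq_zero fun j _ => ?_
    rw [hc.zero _ ((one_le_div (hw.pos j)).2 ((hw.le j).trans hx)), mul_zero]
  · rw [← hw.one]
    unfold WT WJ
    congr 1
    refine Finset.sum_congr rfl fun j _ => ?_
    rw [zero_div, wc_zero h0 h1, if_pos (hw.pos j).le]

end Pool.Agent.UFY
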