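import Pool.Agent.Lib.UFY.Defs
import Pool.Agent.Lib.MP_f9aece_nt.MeanValue

/-!
# UFY, row NDiff: the smoothed sums are close to the sums with jumps (helper69)
-/

set_option autoImplicit false

namespace Pool.Agent.UFY

open MeasureTheory Set Filter Topology Complex
open Pool.Agent.Lib
open Pool.Agent.Lib.MS (MVP ZS TZ)
open Pool.Agent.Lib.MP_f9aece_nt (ev)

namespace NDiffx

/-! ### continuity and boundedness -/

/-- continuous and bounded -/
def CB (F : ℝ → ℂ) : Prop := Continuous F ∧ ∃ C : ℝ, 0 ≤ C ∧ ∀ t, ‖F t‖ ≤ C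

lemma norm_cpow_le (a : ℕ) (t : ℝ) : ‖(a : ℂ) ^ (-(1 / 2 + I * t : ℂ))‖ ≤ 1 := by
  rcases Nat.eq_zero_or_pos a with rfl | ha
  · have h : (-(1 / 2 + I * t : ℂ)) ≠ 0 := by
      intro h
      have := congrArg Complex.re h
      norm_num at this
    rw [Nat.cast_zero, Complex.zero_cpow h, norm_zero]
    exact zero_le_one
  · rw [Complex.norm_natCast_cpow_of_pos ha]
    have h1 : (-(1 / 2 + I * t : ℂ)).re = -(1 / 2 : ℝ) := by simp
    rw [h1]
    exact Real.rpow_le_one_of_one_le_of_nonpos (by exact_mod_cast ha) (by norm_num)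

lemma cb_ZS (w : ℝ → ℂ) (L : ℝ) : CB (fun t => ZS w L t) := by
  constructor
  · unfold MS.ZS
    refine continuous_finsetSum _ fun n hn => ?_
    have hn1 : (n : ℂ) ≠ 0 := by
      have := (Finset.mem_Icc.mp hn).1
      exact_mod_cast (by omega : n ≠ 0)
    refine continuous_const.mul ?_
    refine Continuous.const_cpow ?_ (Or.inl hn1)
    fun_prop
  · refine ⟨∑ n ∈ Finset.Icc 1 ⌊Real.exp L⌋₊, ‖w (Real.log n / L)‖,
      Finset.sum_nonneg fun _ _ => norm_nonneg _, fun t => ?_⟩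
    unfold MS.ZS
    refine (norm_sum_le _ _).trans (Finset.sum_le_sum fun a _ => ?_)
    rw [norm_mul]
    exact mul_le_of_le_one_right (norm_nonneg _) (norm_cpow_le a t)

lemma CB.sub {F G : ℝ → ℂ} (hF : CB F) (hG : CB G) : CB (fun t => F t - G t) := by
  obtain ⟨C, hC, h1⟩ := hF.2
  obtain ⟨D, hD, h2⟩ := hG.2
  exact ⟨hF.1.sub hG.1, C + D, add_nonneg hC hD, fun t =>
    (norm_sub_le _ _).trans (add_le_add (h1 t) (h2 t))⟩

lemma CB.integrable {F : ℝ → ℂ} (hF : CB F) {ν : Measure ℝ} [IsProbabilityMeasure ν]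
    {s : ℝ} (hs : 0 ≤ s) : Integrable (fun t => ‖F t‖ ^ s) ν := by
  obtain ⟨C, hC, h1⟩ := hF.2
  refine Integrable.of_bound (C := C ^ s) ?_ (Eventually.of_forall fun t => ?_)
  · exact (Continuous.rpow_const hF.1.norm fun _ => Or.inr hs).aestronglyMeasurable
  · rw [Real.norm_eq_abs, abs_of_nonneg (by positivity)]
    exact Real.rpow_le_rpow (norm_nonneg _) (h1 t) hs

/-! ### the decomposition -/

lemma ev_TZ (u : ℝ → ℝ) (L t : ℝ) : ev t (TZ u L) = ZS (fun x => (u x : ℂ)) L t := by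
  unfold MS.TZ MS.ZS
  rw [map_sum]
  exact Finset.sum_congr rfl fun n _ => MP_f9aece_nt.ev_single t n (u (Real.log n / L))

lemma rp_one {τ x : ℝ} (h0 : 0 < τ) (hx : 1 ≤ x) : RM.rp τ x = 1 := by
  unfold RM.rp
  have h1 : 1 ≤ (x - (1 - τ)) / τ := by
    rw [le_div_iff₀ h0]
    linarith
  rw [min_eq_left h1]
  exact max_eq_right zero_le_one

lemma split_one {τ b L : ℝ} (hτ : 0 < τ) (hb : 0 < b) (hb1 : b ≤ 1) (hL : 0 < L) (t : ℝ) :
    ∑ m ∈ Finset.Icc 1 ⌊Real.exp L⌋₊, ((if Real.log m / L ≤ b then (1 : ℂ) else 0)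
      - RM.wc τ (Real.log m / L / b)) * (m : ℂ) ^ (-(1 / 2 + I * t : ℂ))
    = ev t (TZ (PS.rp τ) (b * L)) := by
  have hbL : 0 < b * L := mul_pos hb hL
  rw [ev_TZ]
  unfold MS.ZS
  symm
  have hsub : Finset.Icc 1 ⌊Real.exp (b * L)⌋₊ ⊆ Finset.Icc 1 ⌊Real.exp L⌋₊ := by
    refine Finset.Icc_subset_Icc le_rfl (Nat.floor_mono (Real.exp_le_exp.mpr ?_))
    nlinarith
  have key : ∀ m : ℕ, Real.log m / L / b = Real.log m / (b * L) := by
    intro m
    rw [div_div, mul_comm]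
  refine (Finset.sum_congr rfl fun m hm => ?_).trans
    (Finset.sum_subset hsub fun m hm hm' => ?_)
  · have hm1 : 1 ≤ m := (Finset.mem_Icc.mp hm).1
    have hm2 : m ≤ ⌊Real.exp (b * L)⌋₊ := (Finset.mem_Icc.mp hm).2
    have hm0 : (0 : ℝ) < m := by exact_mod_cast hm1
    have h1 : Real.log m ≤ b * L := by
      rw [Real.log_le_iff_le_exp hm0]
      exact (Nat.le_floor_iff (Real.exp_pos _).le).mp hm2
    have h2 : Real.log m / L ≤ b := by
      rw [div_le_iff₀ hL]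
      exact h1
    rw [if_pos h2, key]
    unfold RM.wc
    have h3 : RM.rp τ (Real.log m / (b * L)) = PS.rp τ (Real.log m / (b * L)) := rfl
    rw [h3]
    push_cast
    ring
  · have hm1 : 1 ≤ m := (Finset.mem_Icc.mp hm).1
    have hm0 : (0 : ℝ) < m := by exact_mod_cast hm1
    have hm2 : ⌊Real.exp (b * L)⌋₊ < m := by
      by_contra h
      exact hm' (Finset.mem_Icc.mpr ⟨hm1, not_lt.mp h⟩)
    have h1 : b * L < Real.log m := by
      rw [Real.lt_log_iff_exp_lt hm0]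
      exact (Nat.floor_lt (Real.exp_pos _).le).mp hm2
    have h2 : ¬ Real.log m / L ≤ b := by
      rw [div_le_iff₀ hL]
      exact not_le.mpr h1
    rw [if_neg h2, key]
    unfold RM.wc
    rw [rp_one hτ ((one_le_div hbL).mpr h1.le)]
    simp

lemma split (w0 : ℝ → ℂ) (n : ℕ) (a : ℕ → ℂ) (b : ℕ → ℝ) {τ L : ℝ} (hτ : 0 < τ)
    (hb : ∀ j, 0 < b j) (hb1 : ∀ j, b j ≤ 1) (hL : 0 < L) (t : ℝ) :
    ZS (WJ w0 n a b) L t - ZS (WT w0 n a b τ) L t
      = ∑ j ∈ Finset.range n, a j * ev t (TZ (PS.rp τ) (b j * L)) := by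
  have h1 : ∀ j, a j * ev t (TZ (PS.rp τ) (b j * L)) = ∑ m ∈ Finset.Icc 1 ⌊Real.exp L⌋₊,
      a j * (((if Real.log m / L ≤ b j then (1 : ℂ) else 0)
        - RM.wc τ (Real.log m / L / b j)) * (m : ℂ) ^ (-(1 / 2 + I * t : ℂ))) := by
    intro j
    rw [← split_one hτ (hb j) (hb1 j) hL t, Finset.mul_sum]
  simp only [h1]
  rw [Finset.sum_comm]
  unfold MS.ZS
  rw [← Finset.sum_sub_distrib]
  refine Finset.sum_congr rfl fun m _ => ?_
  unfold WJ WT
  rw [← sub_mul, add_sub_add_left_eq_sub, ← Finset.sum_sub_distrib, Finset.sum_mul]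
  refine Finset.sum_congr rfl fun j _ => ?_
  ring

end NDiffx

open NDiffx

theorem nDiff (hT : PS.Tail) (hP : RM.PowS) : NDiff := by
  intro q k hq hk hqk' hqk B Lam w0 n a b hw
  obtain ⟨C, hC1, hTail⟩ := hT q k hq hk hqk' hqk
  have hs : 0 < 2 * k := by linarith
  obtain ⟨C1, hC1', hPow⟩ := hP (2 * k) 1 hs one_pos
  set A : ℝ := ∑ j ∈ Finset.range n, (2 : ℝ) ^ ((1 : ℝ) * j) * ‖a j‖ ^ (2 * k) with hA
  have hA0 : 0 ≤ A := Finset.sum_nonneg fun j _ => by positivity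
  refine ⟨C1 * (A + 1) * C, ?_, fun τ hτ hτ1 => ?_⟩
  · have h1 : 1 ≤ C1 * (A + 1) := by nlinarith
    nlinarith
  obtain ⟨C0, hC0, h2⟩ := hTail τ hτ hτ1
  -- the smallest jump
  obtain ⟨b0, hb0, hb0'⟩ : ∃ b0 : ℝ, 0 < b0 ∧ ∀ j ∈ Finset.range n, b0 ≤ b j := by
    rcases Nat.eq_zero_or_pos n with hn | hn
    · subst hn
      exact ⟨1, one_pos, fun j hj => absurd hj (by simp)⟩
    · obtain ⟨j0, hj0, hmin⟩ := Finset.exists_min_image (Finset.range n) b
        ⟨0, Finset.mem_range.mpr hn⟩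
      exact ⟨b j0, hw.pos j0, hmin⟩
  refine ⟨C0 + C0 / b0, by have : 0 ≤ C0 / b0 := by positivity
                           linarith, fun L hL X η ν hν hη hX => ?_⟩
  have hC00 : 0 < C0 := by linarith
  have hd0 : 0 ≤ C0 / b0 := by positivity
  have hL0 : 0 < L := by linarith
  have hprob : IsProbabilityMeasure ν := hν.prob
  have hδ : 0 ≤ τ ^ (k * (k - q + 1)) := Real.rpow_nonneg hτ.le _
  have hLk : 0 ≤ L ^ (k ^ 2) := Real.rpow_nonneg hL0.le _
  have hj : ∀ j ∈ Finset.range n, ∫ t, ‖ev t (TZ (PS.rp τ) (b j * L))‖ ^ (2 * k) ∂ν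
      ≤ C * (τ ^ (k * (k - q + 1)) * L ^ (k ^ 2)) := by
    intro j hj
    have hbj : b0 ≤ b j := hb0' j hj
    have hb1 := hw.le j
    have hbp := hw.pos j
    have h3 : C0 ≤ b j * L := by
      have h4 : C0 / b0 ≤ L := by linarith
      rw [div_le_iff₀ hb0] at h4
      nlinarith
    have h4 : Real.exp (C0 * (b j * L)) ≤ X := by
      refine le_trans (Real.exp_le_exp.mpr ?_) hX
      have h5 : b j * L ≤ L := by nlinarith
      have h6 : C0 * (b j * L) ≤ C0 * L := mul_le_mul_of_nonneg_left h5 hC00.le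
      have h7 : C0 * L ≤ (C0 + C0 / b0) * L := mul_le_mul_of_nonneg_right (by linarith) hL0.le
      linarith
    refine (h2 (b j * L) h3 X η ν hν hη h4).trans ?_
    refine mul_le_mul_of_nonneg_left (mul_le_mul_of_nonneg_left ?_ hδ) (by linarith)
    exact Real.rpow_le_rpow (by positivity) (by nlinarith) (by positivity)
  have hint : ∀ j, Integrable (fun t => ‖ev t (TZ (PS.rp τ) (b j * L))‖ ^ (2 * k)) ν := by
    intro j
    simp only [ev_TZ]
    exact (cb_ZS _ _).integrable hs.le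
  have hpt : ∀ t, ‖ZS (WJ w0 n a b) L t - ZS (WT w0 n a b τ) L t‖ ^ (2 * k)
      ≤ C1 * ∑ j ∈ Finset.range n, ((2 : ℝ) ^ ((1 : ℝ) * j) * ‖a j‖ ^ (2 * k)) *
        ‖ev t (TZ (PS.rp τ) (b j * L))‖ ^ (2 * k) := by
    intro t
    rw [split w0 n a b hτ hw.pos hw.le hL0 t]
    refine (hPow n fun j => a j * ev t (TZ (PS.rp τ) (b j * L))).trans (le_of_eq ?_)
    congr 1
    refine Finset.sum_congr rfl fun j _ => ?_
    rw [norm_mul, Real.mul_rpow (norm_nonneg _) (norm_nonneg _)]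
    ring
  calc ∫ t, ‖ZS (WJ w0 n a b) L t - ZS (WT w0 n a b τ) L t‖ ^ (2 * k) ∂ν
      ≤ ∫ t, C1 * ∑ j ∈ Finset.range n, ((2 : ℝ) ^ ((1 : ℝ) * j) * ‖a j‖ ^ (2 * k)) *
        ‖ev t (TZ (PS.rp τ) (b j * L))‖ ^ (2 * k) ∂ν := by
        refine integral_mono (((cb_ZS _ _).sub (cb_ZS _ _)).integrable hs.le) ?_ hpt
        exact (integrable_finsetSum _ fun j _ => (hint j).const_mul _).const_mul _
    _ = C1 * ∑ j ∈ Finset.range n, ((2 : ℝ) ^ ((1 : ℝ) * j) * ‖a j‖ ^ (2 * k)) *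
        ∫ t, ‖ev t (TZ (PS.rp τ) (b j * L))‖ ^ (2 * k) ∂ν := by
        rw [integral_const_mul, integral_finsetSum _ fun j _ => (hint j).const_mul _]
        congr 1
        exact Finset.sum_congr rfl fun j _ => integral_const_mul _ _
    _ ≤ C1 * ∑ j ∈ Finset.range n, ((2 : ℝ) ^ ((1 : ℝ) * j) * ‖a j‖ ^ (2 * k)) *
        (C * (τ ^ (k * (k - q + 1)) * L ^ (k ^ 2))) := by
        refine mul_le_mul_of_nonneg_left (Finset.sum_le_sum fun j hj' => ?_) (by linarith)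
        exact mul_le_mul_of_nonneg_left (hj j hj') (by positivity)
    _ = C1 * A * C * (τ ^ (k * (k - q + 1)) * L ^ (k ^ 2)) := by
        rw [← Finset.sum_mul, ← hA]
        ring
    _ ≤ C1 * (A + 1) * C * (τ ^ (k * (k - q + 1)) * L ^ (k ^ 2)) := by
        refine mul_le_mul_of_nonneg_right ?_ (by positivity)
        have hC0' : 0 ≤ C := by linarith
        have hC1'' : 0 ≤ C1 := by linarith
        nlinarith [mul_nonneg hC1'' hC0']

end Pool.Agent.UFY
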