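import Pool.Agent.Lib.UFY.Defs

/-!
Moments of weighted partial sums of zeta: the constant of the weight with jumps is the limit of the
constants of the smoothed weights (copy of `MP_f9aece_nt_rm/D4.lean` with general weights).
-/

set_option autoImplicit false

namespace Pool.Agent.UFY

open MeasureTheory ProbabilityTheory Set Filter Topology Complex
open scoped ComplexConjugate
open Pool.Agent.Lib
open Pool.Agent.Lib.MS (MVP ZS un)
open Pool.Agent.Lib.RM (NT)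

namespace NTox

/-! ### continuity and boundedness -/

/-- continuous and bounded -/
private def CB (F : ℝ → ℂ) : Prop := Continuous F ∧ ∃ C : ℝ, 0 ≤ C ∧ ∀ t, ‖F t‖ ≤ C

private lemma norm_cpow_le (a : ℕ) (t : ℝ) : ‖(a : ℂ) ^ (-(1 / 2 + I * t : ℂ))‖ ≤ 1 := by
  rcases Nat.eq_zero_or_pos a with rfl | ha
  · have h : (-(1 / 2 + I * t : ℂ)) ≠ 0 := by
      intro h
      have := congrArg Complex.re h
      norm_num at this
    rw [Nat.cast_zero, Complex.zero_cpow h, norm_zero]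
    exact zero_le_one
  · rw [Complex.norm_natCast_cpow_of_pos ha]
    have h1 : (-(1 / 2 + I * t : ℂ)).re = -(1 / 2 : ℝ) := by simp
    rw [h1]
    exact Real.rpow_le_one_of_one_le_of_nonpos (by exact_mod_cast ha) (by norm_num)

private lemma CB.sub {F G : ℝ → ℂ} (hF : CB F) (hG : CB G) : CB (fun t => F t - G t) := by
  obtain ⟨C, hC, h1⟩ := hF.2
  obtain ⟨D, hD, h2⟩ := hG.2
  exact ⟨hF.1.sub hG.1, C + D, add_nonneg hC hD, fun t =>
    (norm_sub_le _ _).trans (add_le_add (h1 t) (h2 t))⟩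

private lemma cb_ZS (w : ℝ → ℂ) (L : ℝ) : CB (fun t => ZS w L t) := by
  constructor
  · unfold MS.ZS
    refine continuous_finsetSum _ fun n hn => ?_
    have hn1 : (n : ℂ) ≠ 0 := by
      have := (Finset.mem_Icc.mp hn).1
      exact_mod_cast (by omega : n ≠ 0)
    refine continuous_const.mul ?_
    refine Continuous.const_cpow ?_ (Or.inl hn1)
    fun_prop
  · refine ⟨∑ n ∈ Finset.Icc 1 ⌊Real.exp L⌋₊, ‖w (Real.log n / L)‖,
      Finset.sum_nonneg fun _ _ => norm_nonneg _, fun t => ?_⟩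
    unfold MS.ZS
    refine (norm_sum_le _ _).trans (Finset.sum_le_sum fun a _ => ?_)
    rw [norm_mul]
    exact mul_le_of_le_one_right (norm_nonneg _) (norm_cpow_le a t)

private lemma CB.integrable {F : ℝ → ℂ} (hF : CB F) {ν : Measure ℝ} [IsProbabilityMeasure ν]
    {s : ℝ} (hs : 0 ≤ s) : Integrable (fun t => ‖F t‖ ^ s) ν := by
  obtain ⟨C, hC, h1⟩ := hF.2
  refine Integrable.of_bound (C := C ^ s) ?_ (Eventually.of_forall fun t => ?_)
  · exact (Continuous.rpow_const hF.1.norm fun _ => Or.inr hs).aestronglyMeasurable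
  · rw [Real.norm_eq_abs, abs_of_nonneg (by positivity)]
    exact Real.rpow_le_rpow (norm_nonneg _) (h1 t) hs

/-- comparison of the moments -/
private lemma compare {F G : ℝ → ℂ} (hF : CB F) (hG : CB G) {ν : Measure ℝ}
    (hν : IsProbabilityMeasure ν) {s η C : ℝ} (hs : 0 ≤ s)
    (h : ∀ x y : ℂ, |‖x‖ ^ s - ‖y‖ ^ s| ≤ η * ‖x‖ ^ s + C * ‖x - y‖ ^ s) :
    |∫ t, ‖F t‖ ^ s ∂ν - ∫ t, ‖G t‖ ^ s ∂ν|
      ≤ η * ∫ t, ‖F t‖ ^ s ∂ν + C * ∫ t, ‖F t - G t‖ ^ s ∂ν := by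
  have i1 := hF.integrable (ν := ν) hs
  have i2 := hG.integrable (ν := ν) hs
  have i3 := (hF.sub hG).integrable (ν := ν) hs
  rw [← integral_sub i1 i2, ← integral_const_mul, ← integral_const_mul,
    ← integral_add (i1.const_mul _) (i3.const_mul _)]
  refine (abs_integral_le_integral_abs).trans ?_
  exact integral_mono (i1.sub i2).abs ((i1.const_mul _).add (i3.const_mul _)) fun t => h _ _

/-! ### good tuples -/

/-- the admissible tuples -/
private def Good (N : ℝ) (L X η : ℝ) (ν : Measure ℝ) : Prop :=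
  N ≤ L ∧ MVP ν X η ∧ Real.exp (N * L) ≤ X ∧ 0 ≤ η ∧ η * N ≤ 1

private lemma Good.mono {N N' L X η : ℝ} {ν : Measure ℝ} (hN : 1 ≤ N) (hNN : N ≤ N')
    (h : Good N' L X η ν) : Good N L X η ν := by
  obtain ⟨h1, h2, h3, h4, h5⟩ := h
  have hL : 0 ≤ L := by linarith
  refine ⟨hNN.trans h1, h2, (Real.exp_le_exp.mpr ?_).trans h3, h4, ?_⟩
  · exact mul_le_mul_of_nonneg_right hNN hL
  · exact (mul_le_mul_of_nonneg_left hNN h4).trans h5

private lemma good_ex (h0 : MS.UnifMVP) {N : ℝ} (hN : 1 ≤ N) :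
    ∃ (L X η : ℝ) (ν : Measure ℝ), Good N L X η ν := by
  have hX : 1 ≤ Real.exp (N * N) := Real.one_le_exp (by positivity)
  have hT : 0 < 2 * Real.exp (N * N) ^ 2 * N := by positivity
  refine ⟨N, Real.exp (N * N), 2 * Real.exp (N * N) ^ 2 / (2 * Real.exp (N * N) ^ 2 * N),
    un 0 (2 * Real.exp (N * N) ^ 2 * N), le_rfl, h0 0 _ _ hT hX, le_rfl, by positivity, ?_⟩
  have : (0 : ℝ) < Real.exp (N * N) := Real.exp_pos _
  have hN0 : (0 : ℝ) < N := by linarith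
  field_simp
  exact le_rfl

end NTox

open NTox

theorem nTo (hP : MT.PowIneq) (h0 : MS.UnifMVP) : NTo := by
  intro k δ C w v hk hδ hC hTail c hc cc hcc
  have hs : 0 ≤ 2 * k := by linarith
  have hs' : 0 < 2 * k := by linarith
  rw [Metric.tendsto_nhds]
  intro ε hε
  have hη : 0 < ε / (8 * (|c| + ε + 1)) := by positivity
  obtain ⟨C1, hC1', hCp⟩ := hP (2 * k) (ε / (8 * (|c| + ε + 1))) hs' hη
  have hlim : Tendsto (fun τ : ℝ => C1 * (C * τ ^ δ)) (𝓝[>] 0) (𝓝 0) := by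
    have h1 : Tendsto (fun τ : ℝ => τ ^ δ) (𝓝[>] 0) (𝓝 (0 ^ δ)) :=
      (Real.continuousAt_rpow_const 0 _ (Or.inr hδ.le)).tendsto.mono_left nhdsWithin_le_nhds
    rw [Real.zero_rpow hδ.ne'] at h1
    have h2 := (h1.const_mul C).const_mul C1
    simpa using h2
  have hev1 : ∀ᶠ τ : ℝ in 𝓝[>] 0, C1 * (C * τ ^ δ) < ε / 8 :=
    hlim.eventually (gt_mem_nhds (by positivity))
  have hev2 : ∀ᶠ τ : ℝ in 𝓝[>] 0, τ ∈ Set.Ioc (0 : ℝ) 1 := Ioc_mem_nhdsGT one_pos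
  filter_upwards [hev1, hev2] with τ hτ1 hτ2
  obtain ⟨hτ0, hτ1'⟩ := hτ2
  obtain ⟨C0, hC0, h2⟩ := hTail τ hτ0 hτ1'
  obtain ⟨N1, hN1, h3⟩ := hc (ε / 8) (by positivity)
  obtain ⟨N2, hN2, h4⟩ := hcc τ hτ0 hτ1' (ε / 8) (by positivity)
  have hNm : 1 ≤ max (max N1 N2) C0 := hC0.trans (le_max_right _ _)
  obtain ⟨L, X, η, ν, hg⟩ := good_ex h0 hNm
  obtain ⟨a1, a2, a3, a4, a5⟩ := hg.mono hN1 ((le_max_left _ _).trans (le_max_left _ _))
  obtain ⟨d1, d2, d3, d4, d5⟩ := hg.mono hN2 ((le_max_right _ _).trans (le_max_left _ _))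
  obtain ⟨b1, b2, b3, b4, b5⟩ := hg.mono hC0 (le_max_right _ _)
  have hL0 : 0 < L := by linarith
  have hη1 : η ≤ 1 := by nlinarith
  have hprob : IsProbabilityMeasure ν := a2.prob
  have hLk : 0 < L ^ (k ^ 2) := Real.rpow_pos_of_pos hL0 _
  have c1 := compare (cb_ZS w L) (cb_ZS (v τ) L) hprob hs hCp
  have c2 := h2 L b1 X η ν b2 hη1 b3
  have c3 := h3 L X η ν a1 a2 a3 a4 a5
  have c4 := h4 L X η ν d1 d2 d3 d4 d5
  set z : ℝ := (∫ t, ‖ZS w L t‖ ^ (2 * k) ∂ν) / L ^ (k ^ 2) with hz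
  set y : ℝ := (∫ t, ‖ZS (v τ) L t‖ ^ (2 * k) ∂ν) / L ^ (k ^ 2) with hy
  have hz0 : 0 ≤ z := by
    have : 0 ≤ ∫ t, ‖ZS w L t‖ ^ (2 * k) ∂ν := integral_nonneg fun t => by positivity
    positivity
  have i1 : |z - y| ≤ ε / (8 * (|c| + ε + 1)) * z + C1 * (C * τ ^ δ) := by
    rw [hz, hy, ← sub_div, abs_div, abs_of_pos hLk, div_le_iff₀ hLk]
    refine c1.trans ?_
    have e : (ε / (8 * (|c| + ε + 1)) * ((∫ t, ‖ZS w L t‖ ^ (2 * k) ∂ν) / L ^ (k ^ 2))
        + C1 * (C * τ ^ δ)) * L ^ (k ^ 2)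
        = ε / (8 * (|c| + ε + 1)) * (∫ t, ‖ZS w L t‖ ^ (2 * k) ∂ν)
          + C1 * (C * (τ ^ δ * L ^ (k ^ 2))) := by
      field_simp
    rw [e]
    gcongr
  have i2 : |z - c| ≤ ε / 8 := by
    have e1 : z - c = ((∫ t, ‖ZS w L t‖ ^ (2 * k) ∂ν) - c * L ^ (k ^ 2)) / L ^ (k ^ 2) := by
      rw [hz]
      field_simp
    rw [e1, abs_div, abs_of_pos hLk, div_le_iff₀ hLk]
    exact c3
  have i3 : |y - cc τ| ≤ ε / 8 := by
    have e1 : y - cc τ = ((∫ t, ‖ZS (v τ) L t‖ ^ (2 * k) ∂ν) - cc τ * L ^ (k ^ 2))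
        / L ^ (k ^ 2) := by
      rw [hy]
      field_simp
    rw [e1, abs_div, abs_of_pos hLk, div_le_iff₀ hLk]
    exact c4
  have i4 : z ≤ |c| + ε + 1 := by
    have h5 := (abs_le.mp i2).2
    have h6 := le_abs_self c
    linarith
  have i5 : ε / (8 * (|c| + ε + 1)) * z ≤ ε / 8 := by
    calc ε / (8 * (|c| + ε + 1)) * z ≤ ε / (8 * (|c| + ε + 1)) * (|c| + ε + 1) :=
          mul_le_mul_of_nonneg_left i4 hη.le
      _ = ε / 8 := by
          have : |c| + ε + 1 ≠ 0 := by positivity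
          field_simp
  rw [Real.dist_eq]
  have i6 : |cc τ - c| ≤ |cc τ - y| + |y - c| := abs_sub_le _ _ _
  have i7 : |y - c| ≤ |y - z| + |z - c| := abs_sub_le _ _ _
  rw [abs_sub_comm (cc τ) y] at i6
  rw [abs_sub_comm y z] at i7
  linarith

end Pool.Agent.UFY
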