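import Pool.Agent.Lib.UFY.PConv

/-!
# UFY, row PPos: positivity of the constant
-/

set_option autoImplicit false

namespace Pool.Agent.UFY

open MeasureTheory Set Filter Topology Complex
open Pool.Agent.Lib
open Pool.Agent.Lib.MS (MVP ZS)

namespace PPosx

lemma cut_eq {w v : ℝ → ℂ} {m : ℕ} {lam : ℕ → ℂ}
    (h : ∀ x : ℝ, 0 ≤ x → x ≤ 1 → w x =
      (∑ i ∈ Finset.range (m + 1), lam i * (Real.exp (-(i * x)) : ℂ)) * v x)
    {L : ℝ} (hL : 0 < L) (t : ℝ) :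
    ZS w L t = ∑ i ∈ Finset.range (m + 1),
      lam i * SP v L (((1 / 2 + i / L : ℝ) : ℂ) + I * t) := by
  unfold MS.ZS SP
  simp only [Finset.mul_sum]
  rw [Finset.sum_comm]
  refine Finset.sum_congr rfl fun n hn => ?_
  have hn1 : 1 ≤ n := (Finset.mem_Icc.1 hn).1
  have hn2 : n ≤ ⌊Real.exp L⌋₊ := (Finset.mem_Icc.1 hn).2
  have hnR : (1 : ℝ) ≤ n := by exact_mod_cast hn1
  have hn0 : (0 : ℝ) < n := by linarith
  have hlog0 : 0 ≤ Real.log n := Real.log_nonneg hnR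
  have hlogL : Real.log n ≤ L := by
    rw [Real.log_le_iff_le_exp hn0]
    exact (Nat.le_floor_iff (Real.exp_pos L).le).1 hn2
  rw [h _ (div_nonneg hlog0 hL.le) ((div_le_one hL).2 hlogL), Finset.sum_mul, Finset.sum_mul]
  refine Finset.sum_congr rfl fun i _ => ?_
  have hnC : (n : ℂ) ≠ 0 := by exact_mod_cast (by omega : n ≠ 0)
  have h1 : (n : ℂ) ^ (-(((1 / 2 + i / L : ℝ) : ℂ) + I * t)) =
      ((Real.exp (-(i * (Real.log n / L))) : ℝ) : ℂ) * (n : ℂ) ^ (-(1 / 2 + I * t : ℂ)) := by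
    have h2 : (-(((1 / 2 + i / L : ℝ) : ℂ) + I * t))
        = ((-(i / L) : ℝ) : ℂ) + (-(1 / 2 + I * t : ℂ)) := by
      push_cast; ring
    rw [h2, Complex.cpow_add _ _ hnC]
    congr 1
    have h3 : (n : ℂ) = ((n : ℝ) : ℂ) := by push_cast; rfl
    rw [h3, ← Complex.ofReal_cpow hn0.le]
    congr 1
    rw [Real.rpow_def_of_pos hn0]
    congr 1
    ring
  rw [h1]
  ring

lemma bound {B Lam : ℝ} {w0 : ℝ → ℂ} {n : ℕ} {a : ℕ → ℂ} {b : ℕ → ℝ} (hw : Wt B Lam w0 n a b)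
    (x : ℝ) : ‖WJ w0 n a b x‖ ≤ B + (∑ j ∈ Finset.range n, ‖a j‖) + 1 := by
  unfold WJ
  refine (norm_add_le _ _).trans ?_
  have h1 := hw.cut.bd x
  have h2 : ‖∑ j ∈ Finset.range n, a j * (if x ≤ b j then (1 : ℂ) else 0)‖
      ≤ ∑ j ∈ Finset.range n, ‖a j‖ := by
    refine (norm_sum_le _ _).trans (Finset.sum_le_sum fun j _ => ?_)
    rw [norm_mul]
    refine mul_le_of_le_one_right (norm_nonneg _) ?_
    split_ifs
    · simp
    · simp
  linarith

end PPosx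

open PPosx in
theorem pPos (h1 : MS.MomentsT1) (hW : PWt) (hC : PConv) (hP : RM.PowS) : PPos := by
  intro k B Lam w0 n a b hk hw c hc0 hc
  refine lt_of_le_of_ne hc0 ?_
  intro hc00
  have hp : 0 < 2 * k := by linarith
  have hB : 0 ≤ B := (norm_nonneg _).trans (hw.cut.bd 0)
  have hS : 0 ≤ ∑ j ∈ Finset.range n, ‖a j‖ := Finset.sum_nonneg fun _ _ => norm_nonneg _
  obtain ⟨m, lam, w, Lam', hlip, hw0, hw1, hform⟩ := hW B Lam w0 n a b hw
  obtain ⟨C1, hC1, hconv⟩ := hC (2 * k) (B + (∑ j ∈ Finset.range n, ‖a j‖) + 1) m hp (by linarith)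
  obtain ⟨Cp, hCp, hpow⟩ := hP (2 * k) 1 hp one_pos
  obtain ⟨c1, hc1, hM⟩ := h1 w Lam' hlip hw0 hw1 k hk
  obtain ⟨C2, hC2, hM2⟩ := hM (c1 / 2) (by positivity)
  obtain ⟨A0, hA0d⟩ : ∃ A0 : ℝ, A0 = ∑ i ∈ Finset.range (m + 1),
    (2 : ℝ) ^ ((1 : ℝ) * i) * ‖lam i‖ ^ (2 * k) := ⟨_, rfl⟩
  have hA0 : 0 ≤ A0 := by
    rw [hA0d]
    exact Finset.sum_nonneg fun i _ => by positivity
  have hA : 0 < Cp * A0 + 1 := by positivity
  obtain ⟨e, hee⟩ : ∃ e : ℝ, e = c1 / (4 * ((Cp * A0 + 1) * (5 * C1))) := ⟨_, rfl⟩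
  have he0 : 0 < e := by rw [hee]; positivity
  obtain ⟨C3, hC3, hS3⟩ := hc e he0
  set L : ℝ := max (max C2 C3) (max (max 1 (m : ℝ)) (max C1 (1 / e))) with hLd
  have hL2 : C2 ≤ L := (le_max_left _ _).trans (le_max_left _ _)
  have hL3 : C3 ≤ L := (le_max_right _ _).trans (le_max_left _ _)
  have hL1 : 1 ≤ L := (le_max_left _ _).trans ((le_max_left _ _).trans (le_max_right _ _))
  have hLm : (m : ℝ) ≤ L := (le_max_right _ _).trans ((le_max_left _ _).trans (le_max_right _ _))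
  have hLC : C1 ≤ L := (le_max_left _ _).trans ((le_max_right _ _).trans (le_max_right _ _))
  have hLe : 1 / e ≤ L := (le_max_right _ _).trans ((le_max_right _ _).trans (le_max_right _ _))
  have hL0 : 0 < L := by linarith
  set D : ℝ := max (max C2 C3) (2 * k + 1) with hD
  have hD2 : C2 ≤ D := (le_max_left _ _).trans (le_max_left _ _)
  have hD3 : C3 ≤ D := (le_max_right _ _).trans (le_max_left _ _)
  have hDk : 2 * k + 1 ≤ D := le_max_right _ _
  set T : ℝ := Real.exp (D * L) with hTd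
  have hT0 : 0 < T := Real.exp_pos _
  have hlogT : Real.log T = D * L := Real.log_exp _
  have hTL : L + 1 ≤ T := by
    have h2 := Real.add_one_le_exp (D * L)
    have h3 : 1 * L ≤ D * L := mul_le_mul_of_nonneg_right (by linarith) hL0.le
    linarith
  have hT1 : 1 ≤ T := by linarith
  have hLk : 1 ≤ L ^ (k ^ 2) := Real.one_le_rpow hL1 (by positivity)
  have i1 := hM2 L T hL2 hT1 (by rw [hlogT]; exact mul_le_mul_of_nonneg_right hD2 hL0.le) 0
  have i3 := hS3 L (3 * T) hL3 (by linarith) (by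
    have h2 : Real.log T ≤ Real.log (3 * T) := Real.log_le_log hT0 (by linarith)
    rw [hlogT] at h2
    exact (mul_le_mul_of_nonneg_right hD3 hL0.le).trans h2) (-T)
  rw [← hc00, zero_mul, sub_zero, show -T + 3 * T = 2 * T by ring] at i3
  rw [zero_add] at i1
  have j1 : c1 / 2 * L ^ (k ^ 2) ≤ T⁻¹ * ∫ t in (0 : ℝ)..T, ‖ZS w L t‖ ^ (2 * k) := by
    have := (abs_le.1 i1).1
    linarith
  obtain ⟨J, hJ⟩ : ∃ J : ℝ, J = ∫ t in (-T)..(2 * T), ‖ZS (WJ w0 n a b) L t‖ ^ (2 * k) := ⟨_, rfl⟩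
  have j3 : T⁻¹ * J ≤ 3 * e * L ^ (k ^ 2) := by
    rw [← hJ] at i3
    have h2 := (le_abs_self _).trans i3
    rw [mul_inv] at h2
    nlinarith
  have j4 : ∀ i ∈ Finset.range (m + 1), ∫ t in (0 : ℝ)..T,
      ‖SP (WJ w0 n a b) L (((1 / 2 + i / L : ℝ) : ℂ) + I * t)‖ ^ (2 * k)
      ≤ C1 * (J + T / L + Real.exp (2 * k * L)) := by
    intro i hi
    rw [hJ]
    exact hconv (WJ w0 n a b) (fun x _ => bound hw x) i
      (Nat.lt_succ_iff.mp (Finset.mem_range.mp hi)) L T hL1 hLm (by linarith)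
  have hcont : ∀ i : ℕ, Continuous fun t : ℝ =>
      ‖SP (WJ w0 n a b) L (((1 / 2 + i / L : ℝ) : ℂ) + I * t)‖ ^ (2 * k) :=
    fun i => PConvx.cont _ L _ _ hp
  have j5 : ∫ t in (0 : ℝ)..T, ‖ZS w L t‖ ^ (2 * k)
      ≤ Cp * A0 * (C1 * (J + T / L + Real.exp (2 * k * L))) := by
    have hpt : ∀ t : ℝ, ‖ZS w L t‖ ^ (2 * k) ≤ Cp * ∑ i ∈ Finset.range (m + 1),
        ((2 : ℝ) ^ ((1 : ℝ) * i) * ‖lam i‖ ^ (2 * k)) *
          ‖SP (WJ w0 n a b) L (((1 / 2 + i / L : ℝ) : ℂ) + I * t)‖ ^ (2 * k) := by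
      intro t
      rw [cut_eq hform hL0 t]
      refine (hpow (m + 1) fun i : ℕ => lam i *
        SP (WJ w0 n a b) L (((1 / 2 + i / L : ℝ) : ℂ) + I * t)).trans (le_of_eq ?_)
      congr 1
      refine Finset.sum_congr rfl fun i _ => ?_
      rw [norm_mul, Real.mul_rpow (norm_nonneg _) (norm_nonneg _)]
      ring
    have hcs : Continuous fun t : ℝ => Cp * ∑ i ∈ Finset.range (m + 1),
        ((2 : ℝ) ^ ((1 : ℝ) * i) * ‖lam i‖ ^ (2 * k)) *
          ‖SP (WJ w0 n a b) L (((1 / 2 + i / L : ℝ) : ℂ) + I * t)‖ ^ (2 * k) :=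
      continuous_const.mul (continuous_finsetSum _ fun i _ => continuous_const.mul (hcont i))
    have hcz : Continuous fun t : ℝ => ‖ZS w L t‖ ^ (2 * k) := by
      simp only [PConvx.eq_ZS]
      exact PConvx.cont w L (1 / 2) (2 * k) hp
    refine (intervalIntegral.integral_mono_on hT0.le (hcz.intervalIntegrable _ _)
      (hcs.intervalIntegrable _ _) fun t _ => hpt t).trans ?_
    have hint : ∀ i ∈ Finset.range (m + 1), IntervalIntegrable (fun t : ℝ =>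
        ((2 : ℝ) ^ ((1 : ℝ) * i) * ‖lam i‖ ^ (2 * k)) *
          ‖SP (WJ w0 n a b) L (((1 / 2 + i / L : ℝ) : ℂ) + I * t)‖ ^ (2 * k)) volume 0 T :=
      fun i _ => (continuous_const.mul (hcont i)).intervalIntegrable _ _
    rw [intervalIntegral.integral_const_mul, intervalIntegral.integral_finsetSum hint, mul_assoc]
    refine mul_le_mul_of_nonneg_left ?_ (by linarith)
    rw [hA0d, Finset.sum_mul]
    refine Finset.sum_le_sum fun i hi => ?_
    rw [intervalIntegral.integral_const_mul]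
    exact mul_le_mul_of_nonneg_left (j4 i hi) (by positivity)
  -- small terms
  have k1 : T⁻¹ * (T / L) ≤ e * L ^ (k ^ 2) := by
    have h2 : T⁻¹ * (T / L) = 1 / L := by field_simp
    rw [h2]
    have h3 : 1 / L ≤ e := by
      rw [div_le_iff₀ hL0]
      rw [div_le_iff₀ he0] at hLe
      linarith
    nlinarith
  have k2 : T⁻¹ * Real.exp (2 * k * L) ≤ e * L ^ (k ^ 2) := by
    have h2 : T⁻¹ * Real.exp (2 * k * L) ≤ Real.exp (-L) := by
      rw [hTd, ← Real.exp_neg, ← Real.exp_add]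
      refine Real.exp_le_exp.2 ?_
      have h3 : (2 * k + 1) * L ≤ D * L := mul_le_mul_of_nonneg_right hDk hL0.le
      linarith
    have h3 : Real.exp (-L) ≤ e := by
      rw [Real.exp_neg]
      have h4 : L ≤ Real.exp L := by
        have := Real.add_one_le_exp L; linarith
      have h5 : (Real.exp L)⁻¹ ≤ (1 / e)⁻¹ :=
        inv_anti₀ (by positivity) (hLe.trans h4)
      rwa [one_div, inv_inv] at h5
    nlinarith
  have j7 : T⁻¹ * (∫ t in (0 : ℝ)..T, ‖ZS w L t‖ ^ (2 * k))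
      ≤ Cp * A0 * (C1 * (5 * e * L ^ (k ^ 2))) := by
    have h2 := mul_le_mul_of_nonneg_left j5 (inv_nonneg.2 hT0.le)
    refine h2.trans ?_
    have h3 : T⁻¹ * (Cp * A0 * (C1 * (J + T / L + Real.exp (2 * k * L))))
        = Cp * A0 * (C1 * (T⁻¹ * J + T⁻¹ * (T / L) + T⁻¹ * Real.exp (2 * k * L))) := by ring
    rw [h3]
    refine mul_le_mul_of_nonneg_left ?_ (by positivity)
    refine mul_le_mul_of_nonneg_left ?_ (by linarith)
    linarith
  have j8 : (Cp * A0 + 1) * (C1 * (5 * e * L ^ (k ^ 2))) = c1 / 4 * L ^ (k ^ 2) := by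
    rw [hee]
    field_simp
  have j9 : Cp * A0 * (C1 * (5 * e * L ^ (k ^ 2)))
      ≤ (Cp * A0 + 1) * (C1 * (5 * e * L ^ (k ^ 2))) :=
    mul_le_mul_of_nonneg_right (by linarith) (by positivity)
  have : 0 < c1 * L ^ (k ^ 2) := by positivity
  linarith

end Pool.Agent.UFY
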