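import Pool.Agent.Lib.UFY.Defs

/-!
A Lipschitz cut-off which is a combination of shifts of the weight with jumps: multiply the weight by
the product of the `e^(-x) - e^(-b j)`.
-/

set_option autoImplicit false

namespace Pool.Agent.UFY

open Set Filter Topology Complex

namespace PWtx

/-- bounded and Lipschitz -/
def LB (f : ℝ → ℂ) : Prop := ∃ K B : ℝ, 0 ≤ K ∧ 0 ≤ B ∧ (∀ x y, ‖f x - f y‖ ≤ K * |x - y|) ∧
  ∀ x, ‖f x‖ ≤ B

theorem LB.mul {f g : ℝ → ℂ} (hf : LB f) (hg : LB g) : LB (fun x => f x * g x) := by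
  obtain ⟨K, B, hK, hB, hl, hb⟩ := hf
  obtain ⟨K', B', hK', hB', hl', hb'⟩ := hg
  refine ⟨K * B' + B * K', B * B', by positivity, by positivity, fun x y => ?_, fun x => ?_⟩
  · have e : f x * g x - f y * g y = (f x - f y) * g x + f y * (g x - g y) := by ring
    rw [e]
    refine (norm_add_le _ _).trans ?_
    rw [norm_mul, norm_mul]
    have h1 := mul_le_mul (hl x y) (hb' x) (norm_nonneg _) (by positivity)
    have h2 := mul_le_mul (hb y) (hl' x y) (norm_nonneg _) hB
    calc ‖f x - f y‖ * ‖g x‖ + ‖f y‖ * ‖g x - g y‖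
        ≤ K * |x - y| * B' + B * (K' * |x - y|) := add_le_add h1 h2
      _ = (K * B' + B * K') * |x - y| := by ring
  · rw [norm_mul]
    exact mul_le_mul (hb x) (hb' x) (norm_nonneg _) hB

theorem LB.add {f g : ℝ → ℂ} (hf : LB f) (hg : LB g) : LB (fun x => f x + g x) := by
  obtain ⟨K, B, hK, hB, hl, hb⟩ := hf
  obtain ⟨K', B', hK', hB', hl', hb'⟩ := hg
  refine ⟨K + K', B + B', by positivity, by positivity, fun x y => ?_, fun x => ?_⟩
  · have e : f x + g x - (f y + g y) = (f x - f y) + (g x - g y) := by ring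
    rw [e, add_mul]
    exact (norm_add_le _ _).trans (add_le_add (hl x y) (hl' x y))
  · exact (norm_add_le _ _).trans (add_le_add (hb x) (hb' x))

theorem LB.con (c : ℂ) : LB (fun _ => c) :=
  ⟨0, ‖c‖, le_rfl, norm_nonneg _, fun x y => by simp, fun x => le_rfl⟩

theorem LB.prod (f : ℕ → ℝ → ℂ) (hf : ∀ j, LB (f j)) (n : ℕ) :
    LB (fun x => ∏ j ∈ Finset.range n, f j x) := by
  induction n with
  | zero => simpa using LB.con 1
  | succ n ih =>
    simp only [Finset.prod_range_succ]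
    exact LB.mul ih (hf n)

theorem LB.sum (f : ℕ → ℝ → ℂ) (hf : ∀ j, LB (f j)) (n : ℕ) :
    LB (fun x => ∑ j ∈ Finset.range n, f j x) := by
  induction n with
  | zero => simpa using LB.con 0
  | succ n ih =>
    simp only [Finset.sum_range_succ]
    exact LB.add ih (hf n)

/-- the clamp to the unit interval -/
noncomputable def cl (x : ℝ) : ℝ := max 0 (min x 1)

theorem cl_nonneg (x : ℝ) : 0 ≤ cl x := le_max_left _ _

theorem cl_lip (x y : ℝ) : |cl x - cl y| ≤ |x - y| := by
  have h1 : |cl x - cl y| ≤ |min x 1 - min y 1| := by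
    have := abs_max_sub_max_le_max 0 (min x 1) 0 (min y 1)
    simpa [cl] using this
  have h2 : |min x 1 - min y 1| ≤ |x - y| := by
    have := abs_min_sub_min_le_max x 1 y 1
    simpa using this
  exact h1.trans h2

theorem exp_lip {u v : ℝ} (hu : 0 ≤ u) (hv : 0 ≤ v) :
    |Real.exp (-u) - Real.exp (-v)| ≤ |u - v| := by
  have key : ∀ u v : ℝ, 0 ≤ u → u ≤ v → |Real.exp (-u) - Real.exp (-v)| ≤ |u - v| := by
    intro u v hu huv
    have e1 : Real.exp (-v) = Real.exp (-u) * Real.exp (-(v - u)) := by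
      rw [← Real.exp_add]; congr 1; ring
    have h1 : 1 - (v - u) ≤ Real.exp (-(v - u)) := by
      have := Real.add_one_le_exp (-(v - u)); linarith
    have h2 : Real.exp (-u) ≤ 1 := Real.exp_le_one_iff.mpr (by linarith)
    have h3 : Real.exp (-(v - u)) ≤ 1 := Real.exp_le_one_iff.mpr (by linarith)
    have h4 := Real.exp_pos (-u)
    rw [abs_of_nonneg (by rw [e1]; nlinarith), abs_sub_comm, abs_of_nonneg (by linarith), e1]
    nlinarith
  rcases le_total u v with h | h
  · exact key u v hu h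
  · rw [abs_sub_comm, abs_sub_comm u v]
    exact key v u hv h

/-- the exponential of the clamp, cut at `c` -/
theorem LB.ex (c : ℝ) (hc : 0 ≤ c) : LB (fun x => (Real.exp (-(min (cl x) c)) : ℂ)) := by
  have h0 : ∀ x, 0 ≤ min (cl x) c := fun x => le_min (cl_nonneg x) hc
  refine ⟨1, 1, zero_le_one, zero_le_one, fun x y => ?_, fun x => ?_⟩
  · rw [← Complex.ofReal_sub, Complex.norm_real, Real.norm_eq_abs, one_mul]
    refine (exp_lip (h0 x) (h0 y)).trans ?_
    have h2 : |min (cl x) c - min (cl y) c| ≤ |cl x - cl y| := by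
      have := abs_min_sub_min_le_max (cl x) c (cl y) c
      simpa using this
    exact h2.trans (cl_lip x y)
  · rw [Complex.norm_real, Real.norm_eq_abs, abs_of_pos (Real.exp_pos _)]
    exact Real.exp_le_one_iff.mpr (by linarith [h0 x])

/-- the product -/
noncomputable def Lm (n : ℕ) (b : ℕ → ℝ) (x : ℝ) : ℂ :=
  ∏ j ∈ Finset.range n, ((Real.exp (-x) : ℂ) - (Real.exp (-(b j)) : ℂ))

theorem Lm_zero {n : ℕ} {b : ℕ → ℝ} {j : ℕ} (hj : j ∈ Finset.range n) : Lm n b (b j) = 0 :=
  Finset.prod_eq_zero hj (sub_self _)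

theorem Lm_min (n : ℕ) (b : ℕ → ℝ) (c : ℝ) (hc : 0 ≤ c) : LB (fun x => Lm n b (min (cl x) c)) := by
  unfold Lm
  refine LB.prod _ (fun j => ?_) n
  have h := LB.add (LB.ex c hc) (LB.con (-(Real.exp (-(b j)) : ℂ)))
  simpa only [sub_eq_add_neg] using h

theorem Lm_ne (n : ℕ) (b : ℕ → ℝ) (hb : ∀ j, 0 < b j) : Lm n b 0 ≠ 0 := by
  refine Finset.prod_ne_zero_iff.mpr fun j _ => ?_
  rw [sub_ne_zero]
  intro h
  have h1 : Real.exp (-(0 : ℝ)) = Real.exp (-(b j)) := by exact_mod_cast h
  have h2 := Real.exp_injective h1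
  have := hb j
  linarith

theorem Lm_poly (n : ℕ) (b : ℕ → ℝ) : ∃ (m : ℕ) (c : ℕ → ℂ), ∀ x : ℝ,
    Lm n b x = ∑ i ∈ Finset.range (m + 1), c i * (Real.exp (-(i * x)) : ℂ) := by
  let P : Polynomial ℂ := ∏ j ∈ Finset.range n,
    (Polynomial.X - Polynomial.C ((Real.exp (-(b j)) : ℝ) : ℂ))
  refine ⟨P.natDegree, P.coeff, fun x => ?_⟩
  have h1 : Lm n b x = P.eval ((Real.exp (-x) : ℝ) : ℂ) := by
    simp only [P, Polynomial.eval_prod, Polynomial.eval_sub, Polynomial.eval_X, Polynomial.eval_C]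
    rfl
  rw [h1, Polynomial.eval_eq_sum_range]
  refine Finset.sum_congr rfl fun i _ => ?_
  rw [← Complex.ofReal_pow, ← Real.exp_nat_mul]
  congr 3
  ring

end PWtx

open PWtx in
/-- a Lipschitz cut-off which is a combination of shifts of the weight -/
theorem pWt : PWt := by
  intro B Lam w0 n a b hW
  obtain ⟨m, c, hc⟩ := Lm_poly n b
  have hne := Lm_ne n b hW.pos
  have hB : 0 ≤ B := (norm_nonneg _).trans (hW.cut.bd 0)
  have hE : ∀ x : ℝ, Lm n b (cl x) * WJ w0 n a b (cl x)
      = Lm n b (min (cl x) 1) * w0 (cl x)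
        + ∑ j ∈ Finset.range n, a j * Lm n b (min (cl x) (b j)) := by
    intro x
    have h1 : min (cl x) 1 = cl x := min_eq_left (max_le zero_le_one (min_le_right _ _))
    rw [h1, WJ, mul_add, Finset.mul_sum]
    congr 1
    refine Finset.sum_congr rfl fun j hj => ?_
    split_ifs with h
    · rw [min_eq_left h]; ring
    · rw [min_eq_right (not_le.mp h).le, Lm_zero hj]; ring
  have hL : LB (fun x => Lm n b (cl x) * WJ w0 n a b (cl x)) := by
    have h0 : LB (fun x => w0 (cl x)) := by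
      refine ⟨|Lam|, B, abs_nonneg _, hB, fun x y => ?_, fun x => hW.cut.bd _⟩
      refine (hW.cut.lip _ _).trans ?_
      exact mul_le_mul (le_abs_self _) (cl_lip x y) (abs_nonneg _) (abs_nonneg _)
    have h1 : LB (fun x => Lm n b (min (cl x) 1) * w0 (cl x)
        + ∑ j ∈ Finset.range n, a j * Lm n b (min (cl x) (b j))) :=
      LB.add (LB.mul (Lm_min n b 1 zero_le_one) h0)
        (LB.sum _ (fun j => LB.mul (LB.con (a j)) (Lm_min n b (b j) (hW.pos j).le)) n)
    have h2 : (fun x => Lm n b (cl x) * WJ w0 n a b (cl x)) = fun x =>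
        Lm n b (min (cl x) 1) * w0 (cl x)
        + ∑ j ∈ Finset.range n, a j * Lm n b (min (cl x) (b j)) := funext hE
    rw [h2]; exact h1
  have hw : LB (fun x => (Lm n b 0)⁻¹ * (Lm n b (cl x) * WJ w0 n a b (cl x))) :=
    LB.mul (LB.con _) hL
  obtain ⟨K, _, hK, _, hl, _⟩ := hw
  refine ⟨m, fun i => (Lm n b 0)⁻¹ * c i,
    fun x => (Lm n b 0)⁻¹ * (Lm n b (cl x) * WJ w0 n a b (cl x)), K, hl, ?_, ?_, ?_⟩
  · have h0 : cl 0 = 0 := by simp [cl]
    simp only [h0, hW.one, mul_one]
    exact inv_mul_cancel₀ hne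
  · intro x hx
    have h0 : cl x = 1 := by simp [cl, min_eq_right hx]
    simp only [h0]
    by_cases hj : ∃ j ∈ Finset.range n, b j = 1
    · obtain ⟨j, hj, h1⟩ := hj
      have := Lm_zero (b := b) hj
      rw [h1] at this
      rw [this]; ring
    · have h2 : WJ w0 n a b 1 = 0 := by
        rw [WJ, hW.cut.zero 1 le_rfl, zero_add]
        refine Finset.sum_eq_zero fun j hj' => ?_
        rw [if_neg, mul_zero]
        intro h
        exact hj ⟨j, hj', le_antisymm (hW.le j) h⟩
      rw [h2]; ring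
  · intro x hx0 hx1
    have h0 : cl x = x := by simp [cl, min_eq_left hx1, max_eq_right hx0]
    simp only [h0, hc x]
    simp only [Finset.sum_mul, Finset.mul_sum]
    refine Finset.sum_congr rfl fun i _ => ?_
    ring

end Pool.Agent.UFY
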