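import Pool.Agent.Lib.UFY.Defs

/-!
# UFY, row RecW: the coefficients given by the recursion
-/

set_option autoImplicit false

namespace Pool.Agent.UFY

open Pool.Agent.Lib
open Pool.Agent.Lib.RM (SG PG bx dg ee)

namespace RecWx

lemma SG_sub (u v : ℕ → ℂ) (D : Finset ℕ) (L : ℕ) (z : ℕ → ℂ) :
    SG (fun n => u n - v n) D L z = SG u D L z - SG v D L z := by
  unfold RM.SG RM.PG
  rw [← Finset.sum_sub_distrib]
  exact Finset.sum_congr rfl fun α _ => by ring

lemma SG_sum {ι : Type} (s : Finset ι) (a : ι → ℂ) (v : ι → ℕ → ℂ) (D : Finset ℕ) (L : ℕ)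
    (z : ℕ → ℂ) : SG (fun n => ∑ i ∈ s, a i * v i n) D L z = ∑ i ∈ s, a i * SG (v i) D L z := by
  unfold RM.SG RM.PG
  simp only [Finset.sum_mul, Finset.mul_sum]
  rw [Finset.sum_comm]
  exact Finset.sum_congr rfl fun i _ => Finset.sum_congr rfl fun α _ => by ring

end RecWx

open RecWx in
theorem recW (hR : RM.Rec) (hL : GLen) : RecW := by
  intro c z h0 hc u L hu
  have h1 := hR c z h0 hc
  -- the sums at length `L`
  have h2 : ∀ n, n ≤ L → ∑ m ∈ Finset.range (n + 1), c m
      = SG (fun m => if m ≤ n then 1 else 0) (Finset.Icc 1 L) L z := by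
    intro n hn
    rw [h1 n, ← hL (fun m => if m ≤ n then 1 else 0) L n hn fun m hm => if_neg (by omega)]
  have h3 : ∀ n, n ≤ L → c n
      = SG (fun m => if m = n then 1 else 0) (Finset.Icc 1 L) L z := by
    intro n hn
    rcases Nat.eq_zero_or_pos n with rfl | hpos
    · have h4 := h2 0 (Nat.zero_le _)
      simp only [zero_add, Finset.range_one, Finset.sum_singleton, Nat.le_zero] at h4
      exact h4
    · obtain ⟨n, rfl⟩ : ∃ n', n = n' + 1 := ⟨n - 1, by omega⟩
      have h4 := h2 (n + 1) hn
      have h5 := h2 n (by omega)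
      rw [Finset.sum_range_succ, h5] at h4
      have h6 : c (n + 1) = SG (fun m => if m ≤ n + 1 then 1 else 0) (Finset.Icc 1 L) L z
          - SG (fun m => if m ≤ n then 1 else 0) (Finset.Icc 1 L) L z := by
        rw [← h4]
        ring
      rw [h6, ← SG_sub]
      congr 1
      funext m
      by_cases h7 : m = n + 1
      · subst h7
        simp
      · by_cases h8 : m ≤ n
        · simp [h7, h8, Nat.le_succ_of_le h8]
        · have h9 : ¬ m ≤ n + 1 := by omega
          simp [h7, h8, h9]
  have h4 : SG u (Finset.Icc 1 L) L z = SG (fun m => ∑ n ∈ Finset.range (L + 1),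
      u n * (if m = n then 1 else 0)) (Finset.Icc 1 L) L z := by
    congr 1
    funext m
    by_cases hm : m ≤ L
    · rw [Finset.sum_eq_single m]
      · simp
      · intro n _ hn
        rw [if_neg (Ne.symm hn), mul_zero]
      · intro h
        exact absurd (Finset.mem_range.mpr (by omega)) h
    · rw [hu m (by omega)]
      symm
      refine Finset.sum_eq_zero fun n hn => ?_
      have := Finset.mem_range.mp hn
      rw [if_neg (by omega), mul_zero]
  rw [h4, SG_sum]
  refine Finset.sum_congr rfl fun n hn => ?_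
  rw [← h3 n (by have := Finset.mem_range.mp hn; omega)]

end Pool.Agent.UFY
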