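import Pool.Agent.Lib.UFY.FinZ

/-!
# UFY: moments over `[0, 1]` (helper69)

Tools for the result file.
-/

set_option autoImplicit false

namespace Pool.Agent.UFY

open MeasureTheory Set Filter Topology Complex
open Pool.Agent.Lib
open Pool.Agent.Lib.MS (MVP ZS)
open Pool.Agent.Lib.RM (SG MM GLm NT)

/-- change of variables -/
theorem moment_eq (f : ℝ → ℂ) (β x T : ℝ) (hT : 0 < T) :
    ∫ u in (0 : ℝ)..1, ‖f (x + u * T)‖ ^ β = T⁻¹ * ∫ t in x..(x + T), ‖f t‖ ^ β := by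
  have e4 := intervalIntegral.integral_comp_mul_add (fun t : ℝ => ‖f t‖ ^ β) (a := 0) (b := 1)
    hT.ne' x
  simp only [mul_zero, zero_add, mul_one, smul_eq_mul] at e4
  rw [add_comm x T, ← e4]
  refine intervalIntegral.integral_congr fun u _ => ?_
  rw [show x + u * T = T * u + x by ring]

/-- the law for the sums over `m ≤ N` -/
theorem sums {k c : ℝ} {W : ℝ → ℂ} (hI : ILaw k W c) (S : ℕ → ℂ → ℂ)
    (hS : ∀ N s, S N s = ∑ m ∈ Finset.Icc 1 N, W (Real.log m / Real.log N) * (m : ℂ) ^ (-s)) :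
    ∀ ε : ℝ, 0 < ε → ∃ C : ℝ, 0 < C ∧ ∀ (x T : ℝ) (N : ℕ), C ≤ N → (N : ℝ) ^ C ≤ T →
      |(∫ u in (0 : ℝ)..1, ‖S N (1 / 2 + I * x + I * u * T)‖ ^ (2 * k))
        - c * Real.log N ^ (k ^ 2)| ≤ ε * Real.log N ^ (k ^ 2) := by
  intro ε hε
  obtain ⟨C, hC, h⟩ := hI ε hε
  refine ⟨max (Real.exp C) (max C 1), by positivity, fun x T N hN hT => ?_⟩
  have hN1 : Real.exp C ≤ N := (le_max_left _ _).trans hN
  have hN2 : (1 : ℝ) ≤ N := ((le_max_right _ _).trans (le_max_right _ _)).trans hN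
  have hN0 : (0 : ℝ) < N := by linarith
  have hlogN : C ≤ Real.log N := by rwa [Real.le_log_iff_exp_le hN0]
  have hT1 : (N : ℝ) ^ C ≤ T :=
    (Real.rpow_le_rpow_of_exponent_le hN2 ((le_max_left C 1).trans (le_max_right _ _))).trans hT
  have hT2 : 1 ≤ T := (Real.one_le_rpow hN2 hC.le).trans hT1
  have hT0 : 0 < T := by linarith
  have hlogT : C * Real.log N ≤ Real.log T := by
    rw [← Real.log_rpow hN0]
    exact Real.log_le_log (by positivity) hT1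
  have h1 := h (Real.log N) T hlogN hT2 hlogT x
  rw [← moment_eq (ZS W (Real.log N)) (2 * k) x T hT0] at h1
  have e5 : ∀ u : ℝ, S N (1 / 2 + I * x + I * u * T) = ZS W (Real.log N) (x + u * T) := by
    intro u
    rw [hS]
    unfold MS.ZS
    rw [Real.exp_log hN0, Nat.floor_natCast]
    refine Finset.sum_congr rfl fun n _ => ?_
    congr 2
    push_cast
    ring
  simp only [e5]
  exact h1

/-- the law for the windows, with the error term in the other form -/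
theorem windows {k g ak R : ℝ} {φ : ℝ → ℂ} (hR : 0 < R)
    (h : ∀ ε : ℝ, 0 < ε → ∃ C : ℝ, 0 < C ∧ ∀ H T : ℝ, 0 < H → C * H ≤ 1 → 1 ≤ T →
      C ≤ H * Real.log T → ∀ x : ℝ,
      |T⁻¹ * (∫ t in x..(x + T), ‖MS.ZW φ H t‖ ^ (2 * k)) - ak * g * R ^ (k ^ 2) * H ^ (-(k ^ 2))|
        ≤ ε * H ^ (-(k ^ 2))) (A : ℝ → ℝ → ℂ) (hA : ∀ H y, A H y = MS.ZW φ H y) :
    ∀ ε : ℝ, 0 < ε → ∃ C : ℝ, 0 < C ∧ ∀ x T H : ℝ, 1 ≤ T → 0 < H → C * H ≤ 1 →
      C ≤ H * Real.log T →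
      |(∫ u in (0 : ℝ)..1, ‖A H (x + u * T)‖ ^ (2 * k)) - ak * g * (R / H) ^ (k ^ 2)|
        ≤ ε * (R / H) ^ (k ^ 2) := by
  intro ε hε
  have hRk : 0 < R ^ (k ^ 2) := Real.rpow_pos_of_pos hR _
  obtain ⟨C, hC, h⟩ := h (ε * R ^ (k ^ 2)) (by positivity)
  refine ⟨C, hC, fun x T H hT hH hCH hHT => ?_⟩
  have h1 := h H T hH hCH hT hHT x
  rw [← moment_eq (MS.ZW φ H) (2 * k) x T (by linarith)] at h1
  have e : (R / H) ^ (k ^ 2) = R ^ (k ^ 2) * H ^ (-(k ^ 2)) := by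
    rw [Real.div_rpow hR.le hH.le, Real.rpow_neg hH.le]
    rfl
  simp only [hA, e]
  have e2 : ak * g * R ^ (k ^ 2) * H ^ (-(k ^ 2)) = ak * g * (R ^ (k ^ 2) * H ^ (-(k ^ 2))) := by
    ring
  rw [e2] at h1
  refine h1.trans (le_of_eq (by ring))

/-- the Gaussian model in terms of the recursion -/
theorem model (hR : RecW) {k g : ℝ} {W : ℝ → ℂ} (hW : ∀ x, 1 < x → W x = 0)
    (hG : GLm k (fun L m => W ((m : ℝ) / L)) g) (c : (ℕ → ℂ) → ℕ → ℂ)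
    (h0 : ∀ z, c z 0 = 1) (hc : ∀ z (n : ℕ), ((n : ℂ) + 1) * c z (n + 1)
      = ∑ j ∈ Finset.range (n + 1), (Real.sqrt ((j : ℝ) + 1) : ℂ) * z (j + 1) * c z (n - j)) :
    Tendsto (fun L : ℕ => (∫ z, ‖∑ n ∈ Finset.range (L + 1), W ((n : ℝ) / L) * c z n‖ ^ (2 * k)
      ∂(RM.Gm)) / (L : ℝ) ^ (k ^ 2)) atTop (𝓝 g) := by
  unfold RM.GLm at hG
  refine hG.congr' ?_
  filter_upwards [eventually_ge_atTop 1] with L hL
  congr 1
  refine integral_congr_ae (Eventually.of_forall fun z => ?_)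
  simp only
  rw [hR (c z) z (h0 z) (hc z) (fun n => W ((n : ℝ) / L)) L fun n hn => ?_]
  refine hW _ ?_
  have hL0 : (0 : ℝ) < L := by exact_mod_cast hL
  rw [one_lt_div hL0]
  exact_mod_cast hn

end Pool.Agent.UFY
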