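import Pool.Agent.Lib.UFY.Defs
import Pool.Agent.Lib.MP_f9aece_nt_ms.Z7MomentsT2

/-!
UFY, row ZWin: from Dirichlet polynomials to averages of zeta over windows.
-/

set_option autoImplicit false

namespace Pool.Agent.UFY

open MeasureTheory Set Filter Topology Complex
open Pool.Agent.Lib
open Pool.Agent.Lib.MS Pool.Agent.Lib.MS.Z7I

theorem zWin (hid : MS.ZIdent) (hl : MS.PsiLip) (hr : MS.ResBound) (hm : MS.ResMom)
    (hp : MS.PowClose) : ZWin := by
  intro φ R hφ k c hk hc hT1 ε hε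
  obtain ⟨B, ψ', hB, hb, hlip, hder, -, -⟩ := hl φ R hφ
  obtain ⟨Cr, hCr, hres⟩ := hr φ R hφ
  have hR := hφ.hR
  have hψ : Continuous (psi φ) := continuous_iff_continuousAt.mpr fun r => (hder r).continuousAt
  obtain ⟨w, hw⟩ : ∃ w : ℝ → ℂ, w = fun r => psi φ (R * r) := ⟨_, rfl⟩
  rw [← hw] at hT1
  obtain ⟨ε', hε'⟩ : ∃ ε', ε' = ε * (R ^ (k ^ 2))⁻¹ := ⟨_, rfl⟩
  have hRp : 0 < R ^ (k ^ 2) := Real.rpow_pos_of_pos hR _
  have hε'0 : 0 < ε' := by rw [hε']; positivity
  obtain ⟨C1, hC1, hS⟩ := hT1 (ε' / 8) (by positivity)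
  obtain ⟨ε2, hε2⟩ : ∃ ε2, ε2 = ε' / (8 * (c + ε' + 1)) := ⟨_, rfl⟩
  have hε20 : 0 < ε2 := by rw [hε2]; positivity
  have hε2m : ε2 * (c + ε' + 1) = ε' / 8 := by
    rw [hε2]; field_simp
  obtain ⟨C2, hC2, hpc⟩ := hp (2 * k) ε2 (by positivity) hε20
  obtain ⟨θ, hθ⟩ : ∃ θ, θ = min k (1 / 2 : ℝ) := ⟨_, rfl⟩
  have hθ0 : 0 < θ := by rw [hθ]; exact lt_min hk (by norm_num)
  -- the constant in the exponent
  obtain ⟨a, ha⟩ : ∃ a : ℝ, a = |Real.log (ε' / (24 * C2 * Cr ^ (2 * k)))| := ⟨_, rfl⟩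
  have ha0 : 0 ≤ a := by rw [ha]; exact abs_nonneg _
  have hCr0 : 0 < Cr ^ (2 * k) := Real.rpow_pos_of_pos (by linarith) _
  have hexpa : Real.exp (-a) * (3 * C2 * Cr ^ (2 * k)) ≤ ε' / 8 := by
    have h2 : Real.exp (-a) ≤ ε' / (24 * C2 * Cr ^ (2 * k)) := by
      calc Real.exp (-a) ≤ Real.exp (Real.log (ε' / (24 * C2 * Cr ^ (2 * k)))) := by
            apply Real.exp_le_exp.mpr
            rw [ha]
            exact neg_abs_le _
        _ = _ := Real.exp_log (by positivity)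
    calc Real.exp (-a) * (3 * C2 * Cr ^ (2 * k))
        ≤ ε' / (24 * C2 * Cr ^ (2 * k)) * (3 * C2 * Cr ^ (2 * k)) := by gcongr
      _ = ε' / 8 := by field_simp; norm_num
  obtain ⟨C, hCd⟩ : ∃ C : ℝ, C = 1 + C1 / R + 1 / R + C1 * R + (k * R + a) / θ := ⟨_, rfl⟩
  have hC0 : 1 ≤ C := by
    rw [hCd]
    have : 0 ≤ C1 / R + 1 / R + C1 * R + (k * R + a) / θ := by positivity
    linarith
  refine ⟨C, by linarith, fun H T hH hCH hT hCT x => ?_⟩
  have hT0 : (0 : ℝ) < T := by linarith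
  have hH1 : H ≤ 1 := by nlinarith
  have hinv : C ≤ 1 / H := by rw [le_div_iff₀ hH]; exact hCH
  have hCT' : C / H ≤ Real.log T := by rw [div_le_iff₀ hH]; linarith
  -- the Dirichlet polynomial
  have hS' := hS (R / H) T (by
      have h3 : C1 / R ≤ C := by
        rw [hCd]
        have : 0 ≤ 1 / R + C1 * R + (k * R + a) / θ := by positivity
        linarith
      calc C1 = R * (C1 / R) := by field_simp
        _ ≤ R * (1 / H) := mul_le_mul_of_nonneg_left (h3.trans hinv) hR.le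
        _ = R / H := by ring) hT (by
      have h3 : C1 * R ≤ C := by
        rw [hCd]
        have : 0 ≤ C1 / R + 1 / R + (k * R + a) / θ := by positivity
        linarith
      calc C1 * (R / H) = C1 * R / H := by ring
        _ ≤ C / H := by gcongr
        _ ≤ _ := hCT') x
  obtain ⟨P, hP⟩ : ∃ P, P = (R / H) ^ (k ^ 2) := ⟨_, rfl⟩
  have hP1 : 1 ≤ P := by
    rw [hP]
    refine Real.one_le_rpow ?_ (by positivity)
    have h3 : 1 / R ≤ C := by
      rw [hCd]
      have : 0 ≤ C1 / R + C1 * R + (k * R + a) / θ := by positivity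
      linarith
    calc (1 : ℝ) = R * (1 / R) := by field_simp
      _ ≤ R * (1 / H) := mul_le_mul_of_nonneg_left (h3.trans hinv) hR.le
      _ = R / H := by ring
  have hPH : P = R ^ (k ^ 2) * H ^ (-(k ^ 2)) := by
    rw [hP, Real.div_rpow hR.le hH.le, Real.rpow_neg hH.le]; rfl
  rw [← hP] at hS'
  -- the pole term
  have hcZS := cont_ZS w (R / H)
  have hcR := cont_Res hψ R H
  have hcZ : Continuous (ZW φ H) := by
    have : ZW φ H = fun t => ZS w (R / H) t - Res φ R H t := by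
      funext t
      rw [hw]
      exact hid φ R hφ H t hH
    rw [this]
    exact hcZS.sub hcR
  have hRes : C2 * av (Res φ R H) (2 * k) x T ≤ ε' / 8 := by
    have h3 : av (Res φ R H) (2 * k) x T
        ≤ (Cr * Real.exp (R / (2 * H))) ^ (2 * k) * (3 * T ^ (-θ)) := by
      have h4 : (∫ t in x..(x + T), ‖Res φ R H t‖ ^ (2 * k))
          ≤ ∫ t in x..(x + T), (Cr * Real.exp (R / (2 * H))) ^ (2 * k) * (1 / (1 + |t|)) ^ (2 * k) := by
        refine intervalIntegral.integral_mono_on (by linarith) ?_ ?_ ?_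
        · exact (hcR.norm.rpow_const fun t => Or.inr (by positivity)).intervalIntegrable _ _
        · refine Continuous.intervalIntegrable ?_ _ _
          refine continuous_const.mul (Continuous.rpow_const ?_ fun t => Or.inr (by positivity))
          exact Continuous.div continuous_const (by fun_prop) fun t => by positivity
        · intro t _
          rw [← Real.mul_rpow (by positivity) (by positivity)]
          refine Real.rpow_le_rpow (norm_nonneg _) ?_ (by positivity)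
          refine (hres H t hH hH1).trans (le_of_eq ?_)
          ring
      rw [intervalIntegral.integral_const_mul] at h4
      have h5 := hm k hk T x hT
      rw [← hθ] at h5
      unfold av
      calc T⁻¹ * (∫ t in x..(x + T), ‖Res φ R H t‖ ^ (2 * k))
          ≤ T⁻¹ * ((Cr * Real.exp (R / (2 * H))) ^ (2 * k)
            * ∫ t in x..(x + T), (1 / (1 + |t|)) ^ (2 * k)) := by gcongr
        _ = (Cr * Real.exp (R / (2 * H))) ^ (2 * k)
            * (T⁻¹ * ∫ t in x..(x + T), (1 / (1 + |t|)) ^ (2 * k)) := by ring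
        _ ≤ _ := by gcongr
    have h4 : Real.exp (R / (2 * H)) ^ (2 * k) * T ^ (-θ) ≤ Real.exp (-a) := by
      rw [← Real.exp_mul, Real.rpow_def_of_pos hT0, ← Real.exp_add]
      apply Real.exp_le_exp.mpr
      have h5 : (k * R + a) / θ ≤ C := by
        rw [hCd]
        have : 0 ≤ C1 / R + 1 / R + C1 * R := by positivity
        linarith
      have h6 : k * R + a ≤ θ * C := by
        rw [div_le_iff₀ hθ0] at h5; linarith
      have h7 : (k * R + a) / H ≤ θ * Real.log T := by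
        calc (k * R + a) / H ≤ θ * C / H := by gcongr
          _ = θ * (C / H) := by ring
          _ ≤ _ := by gcongr
      have h8 : a ≤ a / H := by
        rw [le_div_iff₀ hH]; nlinarith
      have h9 : R / (2 * H) * (2 * k) = k * R / H := by field_simp
      rw [h9]
      have h10 : (k * R + a) / H = k * R / H + a / H := by ring
      linarith
    calc C2 * av (Res φ R H) (2 * k) x T
        ≤ C2 * ((Cr * Real.exp (R / (2 * H))) ^ (2 * k) * (3 * T ^ (-θ))) := by gcongr
      _ = 3 * C2 * Cr ^ (2 * k) * (Real.exp (R / (2 * H)) ^ (2 * k) * T ^ (-θ)) := by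
          rw [Real.mul_rpow (by linarith) (Real.exp_pos _).le]; ring
      _ ≤ 3 * C2 * Cr ^ (2 * k) * Real.exp (-a) := by gcongr
      _ = Real.exp (-a) * (3 * C2 * Cr ^ (2 * k)) := by ring
      _ ≤ _ := hexpa
  have hResP : C2 * av (Res φ R H) (2 * k) x T ≤ ε' / 8 * P := by nlinarith
  -- comparison
  have hup := av_le hcZ hcZS hcR (β := 2 * k) (a := 1 + ε2) (C := C2) (by positivity) (by
      intro t
      rw [hid φ R hφ H t hH, ← hw, sub_eq_add_neg]
      have := hpc (ZS w (R / H) t) (-Res φ R H t)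
      rwa [norm_neg] at this) x hT0
  have hlo := av_le hcZS hcZ hcR (β := 2 * k) (a := 1 + ε2) (C := C2) (by positivity) (by
      intro t
      have h3 : ZS w (R / H) t = ZW φ H t + Res φ R H t := by
        rw [hid φ R hφ H t hH, ← hw]; ring
      rw [h3]
      exact hpc _ _) x hT0
  change |av (ZS w (R / H)) (2 * k) x T - c * P| ≤ ε' / 8 * P at hS'
  change |av (ZW φ H) (2 * k) x T - c * R ^ (k ^ 2) * H ^ (-(k ^ 2))| ≤ ε * H ^ (-(k ^ 2))
  have e1 : c * R ^ (k ^ 2) * H ^ (-(k ^ 2)) = c * P := by rw [hPH]; ring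
  have e2 : ε * H ^ (-(k ^ 2)) = ε' * P := by
    rw [hPH, hε']; field_simp
  rw [e1, e2]
  obtain ⟨s, hs⟩ : ∃ s, s = av (ZS w (R / H)) (2 * k) x T := ⟨_, rfl⟩
  obtain ⟨z, hz⟩ : ∃ z, z = av (ZW φ H) (2 * k) x T := ⟨_, rfl⟩
  rw [← hs] at hS' hup hlo
  rw [← hz] at hup hlo ⊢
  rw [abs_le] at hS' ⊢
  have hP0 : 0 < P := by linarith
  have hεc : ε2 * c ≤ ε' / 8 := by nlinarith
  have hu : z ≤ (c + ε') * P := by
    have h3 : s ≤ (c + ε' / 8) * P := by linarith [hS'.2]
    have h4 : (1 + ε2) * s ≤ (1 + ε2) * ((c + ε' / 8) * P) := by gcongr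
    have h5 : ε2 * (c + ε' / 8) ≤ ε' / 8 := by nlinarith
    have h6 : ε2 * (c + ε' / 8) * P ≤ ε' / 8 * P := by gcongr
    nlinarith
  constructor
  · have h3 : ε2 * z ≤ ε2 * ((c + ε') * P) := by gcongr
    have h4 : ε2 * (c + ε') ≤ ε' / 8 := by nlinarith
    have h5 : ε2 * (c + ε') * P ≤ ε' / 8 * P := by gcongr
    nlinarith [hS'.1]
  · linarith

end Pool.Agent.UFY
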