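import Pool.Agent.Lib.MP_f9aece_nt_rm.All
import Pool.Agent.Lib.UFY.NCut
import Pool.Agent.Lib.UFY.NDiff
import Pool.Agent.Lib.UFY.NLim
import Pool.Agent.Lib.UFY.NTo
import Pool.Agent.Lib.UFY.GTo
import Pool.Agent.Lib.UFY.GSmall
import Pool.Agent.Lib.UFY.GLen
import Pool.Agent.Lib.UFY.MMSum
import Pool.Agent.Lib.UFY.GDiff
import Pool.Agent.Lib.UFY.RecW
import Pool.Agent.Lib.UFY.KLip
import Pool.Agent.Lib.UFY.ToInt
import Pool.Agent.Lib.UFY.PWt
import Pool.Agent.Lib.UFY.PConv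
import Pool.Agent.Lib.UFY.PPos
import Pool.Agent.Lib.UFY.ZWin
import Pool.Agent.Lib.UFY.Res

/-!
# UFY: everything together (helper69)
-/

set_option autoImplicit false

namespace Pool.Agent.UFY

open Pool.Agent.Lib

theorem xPConv : PConv := pConv (MP2.convexInt (MP2.convex MP2.subMean MP2.maxPrinc) MP2.gwBd)

theorem xFinS : FinS := finS MT.xLimEx nCut (nDiff PS.xTail RM.xPowS)
  (nLim MT.powIneq MT.cauL MS.unifMVP) (nTo MT.powIneq MS.unifMVP) (gTo MT.powIneq RM.xOrth)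
  (gDiff RM.xGTail (gSmall RM.xTel) gLen (mmSum RM.xPowS))
  (kLip MT.xLimEx (RM.constX MT.mertC) (fun _ _ => RM.xEllX) RM.xGMain
    (RM.oneEq RM.xOrth MS.unifMVP RM.rec))
  (toInt MS.unifMVP) (pPos MT.xThmOne pWt xPConv RM.xPowS)

theorem xFinZ : FinZ := finZ xFinS (zWin MS.zIdent MS.psiLip (MS.resBound MS.psiLip) MS.resMom
  MS.powClose)

theorem xRecW : RecW := recW RM.rec gLen

end Pool.Agent.UFY
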