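import Pool.Agent.Lib.UFY.Defs

/-!
# UFY: assembly (helper69)
-/

set_option autoImplicit false

namespace Pool.Agent.UFY

open MeasureTheory Set Filter Topology Complex
open Pool.Agent.Lib
open Pool.Agent.Lib.MS (MVP ZS)
open Pool.Agent.Lib.RM (SG MM GLm NT)

/-- the theorem for the sums: the constant is the arithmetic factor times the constant of the
Gaussian model -/
def FinS : Prop := ∀ (k B Lam : ℝ) (w0 : ℝ → ℂ) (n : ℕ) (a : ℕ → ℂ) (b : ℕ → ℝ), 0 < k →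
  Wt B Lam w0 n a b → ∃ g : ℝ, 0 < g ∧ GLm k (fun L m => WJ w0 n a b ((m : ℝ) / L)) g ∧
  ILaw k (WJ w0 n a b) (NL.ak k * g)

theorem finS (hL : MT.LimEx) (h1 : NCut) (h2 : NDiff) (h3 : NLim) (h4 : NTo) (h5 : GTo)
    (h6 : GDiff) (h7 : KLip) (h8 : ToInt) (h9 : PPos) : FinS := by
  intro k B Lam w0 n a b hk hw
  obtain ⟨q, hqdef⟩ : ∃ q : ℕ, q = ⌈k⌉₊ := ⟨_, rfl⟩
  have hq1 : 1 ≤ q := by rw [hqdef]; exact Nat.one_le_ceil_iff.mpr hk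
  have hqk : k ≤ q := by rw [hqdef]; exact Nat.le_ceil k
  have hqk' : (q : ℝ) - 1 < k := by
    have := Nat.ceil_lt_add_one hk.le
    rw [← hqdef] at this
    linarith
  have hδ : 0 < k * (k - q + 1) := mul_pos hk (by linarith)
  have hak : 0 < NL.ak k := NL.ak_pos hq1 hk.le hqk
  obtain ⟨C, hC, hN⟩ := h2 q k hq1 hk hqk' hqk B Lam w0 n a b hw
  obtain ⟨C', hC', hG⟩ := h6 q k hq1 hk hqk' hqk B Lam w0 n a b hw
  have hcc : ∀ τ : ℝ, ∃ c : ℝ, 0 < τ → τ ≤ 1 → 0 ≤ c ∧ NT k (WT w0 n a b τ) c := by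
    intro τ
    by_cases h : 0 < τ ∧ τ ≤ 1
    · obtain ⟨⟨B', Lam', hcut⟩, hz⟩ := h1 B Lam w0 n a b hw τ h.1 h.2
      obtain ⟨c, hc0, -, hc⟩ := hL k B' Lam' (WT w0 n a b τ) hk hcut hz
      exact ⟨c, fun _ _ => ⟨hc0, hc⟩⟩
    · exact ⟨0, fun h2 h3 => absurd ⟨h2, h3⟩ h⟩
  choose cc hcc using hcc
  obtain ⟨c, hc0, hc⟩ := h3 k _ C _ _ hk hδ (by linarith) hN
    fun τ h0 h1 => ⟨cc τ, hcc τ h0 h1⟩
  have hlim := h4 k _ C _ _ hk hδ (by linarith) hN c hc cc fun τ h0 h1 => (hcc τ h0 h1).2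
  have hI := h8 k _ c hk hc
  have hpos : 0 < c := h9 k B Lam w0 n a b hk hw c hc0 hI
  refine ⟨c / NL.ak k, div_pos hpos hak, ?_, ?_⟩
  · refine h5 k _ C' _ _ hk hδ (by linarith) hG (c / NL.ak k) (fun τ => cc τ / NL.ak k)
      (fun τ h0 h0' => ?_) (hlim.div_const _)
    obtain ⟨⟨B', Lam', hcut⟩, hz⟩ := h1 B Lam w0 n a b hw τ h0 h0'
    exact h7 k B' Lam' (WT w0 n a b τ) hk hcut hz (cc τ) (hcc τ h0 h0').2
  · rw [mul_div_cancel₀ _ hak.ne']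
    exact hI

end Pool.Agent.UFY
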