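import Pool.Agent.Lib.UFY.Fin

/-!
# UFY: windows (helper69)
-/

set_option autoImplicit false

namespace Pool.Agent.UFY

open MeasureTheory Set Filter Topology Complex
open Pool.Agent.Lib
open Pool.Agent.Lib.MS (MVP ZS)
open Pool.Agent.Lib.RM (SG MM GLm NT)

/-- only the values of the weight at `x ≥ 0` matter -/
theorem ILaw.congr {k c : ℝ} {w w' : ℝ → ℂ} (h : ∀ x, 0 ≤ x → w x = w' x) (hI : ILaw k w c) :
    ILaw k w' c := by
  intro ε hε
  obtain ⟨C, hC, h1⟩ := hI ε hε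
  refine ⟨C, hC, fun L T hL hT hLT x => ?_⟩
  have h2 := h1 L T hL hT hLT x
  have hL0 : 0 < L := by linarith
  have h3 : ∀ t, ZS w L t = ZS w' L t := by
    intro t
    unfold MS.ZS
    refine Finset.sum_congr rfl fun n hn => ?_
    have hn1 : 1 ≤ n := (Finset.mem_Icc.mp hn).1
    rw [h _ (div_nonneg (Real.log_nonneg (by exact_mod_cast hn1)) hL0.le)]
  simp only [h3] at h2
  exact h2

/-- the same for the Gaussian model -/
theorem GLm_congr {k c : ℝ} {w w' : ℝ → ℂ} (h : ∀ x, 0 ≤ x → w x = w' x)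
    (hG : GLm k (fun L m => w ((m : ℝ) / L)) c) : GLm k (fun L m => w' ((m : ℝ) / L)) c := by
  have e : (fun (L m : ℕ) => w ((m : ℝ) / L)) = fun (L m : ℕ) => w' ((m : ℝ) / L) := by
    funext L m
    exact h _ (by positivity)
  rwa [e] at hG

/-- the theorem for a weight given on `x ≥ 0` and for the windows with this transform -/
def FinZ : Prop := ∀ (k : ℝ) (W : ℝ → ℂ), 0 < k → ∀ (Lam : ℝ) (w0 : ℝ → ℂ) (n : ℕ) (a : ℕ → ℂ)
  (b : ℕ → ℝ), (∀ x y, 0 ≤ x → 0 ≤ y → ‖w0 x - w0 y‖ ≤ Lam * |x - y|) → (∀ x, 1 ≤ x → w0 x = 0) →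
  (∀ j, j < n → 0 < b j ∧ b j ≤ 1) → W 0 = 1 →
  (∀ x, 0 ≤ x → W x = w0 x + ∑ j ∈ Finset.range n, a j * (if x ≤ b j then 1 else 0)) →
  ∃ g : ℝ, 0 < g ∧ GLm k (fun L m => W ((m : ℝ) / L)) g ∧ ILaw k W (NL.ak k * g) ∧
  ∀ (φ : ℝ → ℂ) (R : ℝ), MS.Adm φ R → (∀ x, 0 ≤ x → W x = MS.psi φ (R * x)) →
  ∀ ε : ℝ, 0 < ε → ∃ C : ℝ, 0 < C ∧ ∀ H T : ℝ, 0 < H → C * H ≤ 1 → 1 ≤ T →
  C ≤ H * Real.log T → ∀ x : ℝ,
  |T⁻¹ * (∫ t in x..(x + T), ‖MS.ZW φ H t‖ ^ (2 * k)) - NL.ak k * g * R ^ (k ^ 2) * H ^ (-(k ^ 2))|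
    ≤ ε * H ^ (-(k ^ 2))

theorem finZ (h : FinS) (hZ : ZWin) : FinZ := by
  intro k W hk Lam w0 n a b hlip hzero hb hW0 hW
  have hLam : 0 ≤ Lam := by
    have h1 := (norm_nonneg _).trans (hlip 0 1 le_rfl zero_le_one)
    simpa using h1
  obtain ⟨q, hqdef⟩ : ∃ q : ℕ, q = ⌈k⌉₊ := ⟨_, rfl⟩
  have hq1 : 1 ≤ q := by rw [hqdef]; exact Nat.one_le_ceil_iff.mpr hk
  have hqk : k ≤ q := by rw [hqdef]; exact Nat.le_ceil k
  have hak : 0 < NL.ak k := NL.ak_pos hq1 hk.le hqk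
  -- the weight on the line
  obtain ⟨v0, hv0⟩ : ∃ v0 : ℝ → ℂ, v0 = fun x => w0 (max 0 x) := ⟨_, rfl⟩
  obtain ⟨b', hb'⟩ : ∃ b' : ℕ → ℝ, b' = fun j => if j < n then b j else 1 := ⟨_, rfl⟩
  have hWJ : ∀ x, 0 ≤ x → W x = WJ v0 n a b' x := by
    intro x hx
    rw [hW x hx]
    unfold WJ
    rw [hv0, hb']
    simp only [max_eq_right hx]
    congr 1
    refine Finset.sum_congr rfl fun j hj => ?_
    have hj' := Finset.mem_range.mp hj
    simp only [hj', if_true]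
  have hwt : Wt Lam Lam v0 n a b' := by
    refine ⟨⟨fun x => ?_, fun x y => ?_, fun x hx => ?_⟩, fun j => ?_, fun j => ?_, ?_⟩
    · rw [hv0]
      by_cases h1 : (1 : ℝ) ≤ max 0 x
      · simp only [hzero _ h1, norm_zero]
        exact hLam
      · have h2 := hlip (max 0 x) 1 (le_max_left _ _) zero_le_one
        rw [hzero 1 le_rfl, sub_zero] at h2
        refine h2.trans (mul_le_of_le_one_right hLam ?_)
        rw [abs_le]
        push Not at h1
        constructor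
        · have := le_max_left (0 : ℝ) x
          linarith
        · linarith
    · rw [hv0]
      refine (hlip _ _ (le_max_left _ _) (le_max_left _ _)).trans
        (mul_le_mul_of_nonneg_left ?_ hLam)
      have h1 := abs_max_sub_max_le_max (0 : ℝ) x 0 y
      simpa using h1
    · rw [hv0]
      exact hzero _ (hx.trans (le_max_right _ _))
    · rw [hb']
      by_cases h1 : j < n
      · simp only [if_pos h1]
        exact (hb j h1).1
      · simp only [if_neg h1]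
        exact one_pos
    · rw [hb']
      by_cases h1 : j < n
      · simp only [if_pos h1]
        exact (hb j h1).2
      · simp only [if_neg h1, le_refl]
    · rw [← hWJ 0 le_rfl, hW0]
  obtain ⟨g, hg, hG, hI⟩ := h k Lam Lam v0 n a b' hk hwt
  refine ⟨g, hg, GLm_congr (fun x hx => (hWJ x hx).symm) hG,
    hI.congr fun x hx => (hWJ x hx).symm, fun φ R hφ hφW => ?_⟩
  have hI2 : ILaw k (fun r => MS.psi φ (R * r)) (NL.ak k * g) :=
    hI.congr fun x hx => by rw [← hWJ x hx, hφW x hx]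
  exact hZ φ R hφ k (NL.ak k * g) hk (mul_pos hak hg) hI2

end Pool.Agent.UFY
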