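import Pool.Agent.Lib.UFY.Defs

/-!
PConv: convexity of the means of a Dirichlet polynomial.
-/

set_option autoImplicit false

namespace Pool.Agent.UFY

open MeasureTheory Set Filter Topology Complex
open Pool.Agent.Lib
open Pool.Agent.Lib.MS (MVP ZS)

namespace PConvx

lemma diff (w : ℝ → ℂ) (L : ℝ) : Differentiable ℂ (SP w L) := by
  unfold SP
  refine Differentiable.fun_sum fun n hn => ?_
  have hn1 : 1 ≤ n := (Finset.mem_Icc.1 hn).1
  intro s
  refine DifferentiableAt.const_mul ?_ _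
  refine DifferentiableAt.const_cpow (differentiableAt_id.neg) (Or.inl ?_)
  exact_mod_cast (by omega : n ≠ 0)

lemma norm_le (w : ℝ → ℂ) (B L : ℝ) (hL : 0 < L) (hw : ∀ x, 0 ≤ x → ‖w x‖ ≤ B) (s : ℂ) :
    ‖SP w L s‖ ≤ B * ∑ n ∈ Finset.Icc 1 ⌊Real.exp L⌋₊, (n : ℝ) ^ (-s.re) := by
  unfold SP
  rw [Finset.mul_sum]
  refine (norm_sum_le _ _).trans (Finset.sum_le_sum fun n hn => ?_)
  have hn1 : 1 ≤ n := (Finset.mem_Icc.1 hn).1
  rw [norm_mul, Complex.norm_natCast_cpow_of_pos (by omega), Complex.neg_re]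
  refine mul_le_mul_of_nonneg_right (hw _ ?_) (Real.rpow_nonneg (Nat.cast_nonneg n) _)
  exact div_nonneg (Real.log_nonneg (by exact_mod_cast hn1)) hL.le

lemma le_exp (w : ℝ → ℂ) (B L : ℝ) (hB : 0 < B) (hL : 0 < L) (hw : ∀ x, 0 ≤ x → ‖w x‖ ≤ B)
    (s : ℂ) (hs : 0 ≤ s.re) : ‖SP w L s‖ ≤ B * Real.exp L := by
  refine (norm_le w B L hL hw s).trans (mul_le_mul_of_nonneg_left ?_ hB.le)
  have h1 : ∑ n ∈ Finset.Icc 1 ⌊Real.exp L⌋₊, (n : ℝ) ^ (-s.re) ≤
      ∑ n ∈ Finset.Icc 1 ⌊Real.exp L⌋₊, (1 : ℝ) := by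
    refine Finset.sum_le_sum fun n hn => ?_
    have hn1 : 1 ≤ n := (Finset.mem_Icc.1 hn).1
    exact Real.rpow_le_one_of_one_le_of_nonpos (by exact_mod_cast hn1) (by linarith)
  refine h1.trans ?_
  simp only [Finset.sum_const, Nat.card_Icc, Nat.add_sub_cancel, nsmul_eq_mul, mul_one]
  exact Nat.floor_le (Real.exp_pos L).le

lemma three (w : ℝ → ℂ) (B L : ℝ) (hB : 0 < B) (hL : 0 < L) (hw : ∀ x, 0 ≤ x → ‖w x‖ ≤ B)
    (s : ℂ) (hs : s.re = 3 / 2) : ‖SP w L s‖ ≤ B * ∑' n : ℕ, (n : ℝ) ^ (-(3 / 2) : ℝ) := by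
  refine (norm_le w B L hL hw s).trans (mul_le_mul_of_nonneg_left ?_ hB.le)
  rw [hs]
  refine (Real.summable_nat_rpow.2 (by norm_num)).sum_le_tsum _ fun n _ => ?_
  exact Real.rpow_nonneg (Nat.cast_nonneg n) _

lemma cont (w : ℝ → ℂ) (L σ p : ℝ) (hp : 0 < p) :
    Continuous (fun t : ℝ => ‖SP w L ((σ : ℂ) + I * t)‖ ^ p) := by
  refine Continuous.rpow_const ?_ (fun _ => Or.inr hp.le)
  refine ((diff w L).continuous.comp ?_).norm
  fun_prop

lemma eq_ZS (w : ℝ → ℂ) (L t : ℝ) : ZS w L t = SP w L (((1 / 2 : ℝ) : ℂ) + I * t) := by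
  unfold ZS SP
  refine Finset.sum_congr rfl fun n _ => ?_
  push_cast
  ring_nf

end PConvx

open PConvx in
theorem pConv (hX : MP2.ConvexInt) : PConv := by
  intro p B m hp hB
  obtain ⟨C1, hC1, H⟩ := hX p hp 1 0
  set K : ℝ := (B * ∑' n : ℕ, (n : ℝ) ^ (-(3 / 2) : ℝ)) ^ p with hK
  have hS0 : 0 ≤ ∑' n : ℕ, (n : ℝ) ^ (-(3 / 2) : ℝ) :=
    tsum_nonneg fun n => Real.rpow_nonneg (Nat.cast_nonneg n) _
  have hK0 : 0 ≤ K := Real.rpow_nonneg (mul_nonneg hB.le hS0) _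
  have hBp : 0 < B ^ p := Real.rpow_pos_of_pos hB p
  have hm0 : (0 : ℝ) ≤ m := Nat.cast_nonneg m
  have h3 : 0 ≤ 3 * m * K := by positivity
  refine ⟨C1 * (1 + 3 * m * K + B ^ p), ?_, ?_⟩
  · have : 1 * 1 ≤ C1 * (1 + 3 * m * K + B ^ p) := by
      refine mul_le_mul hC1 ?_ zero_le_one (by linarith)
      linarith
    linarith
  intro w hw i hi L T hL hmL hT
  have hL0 : 0 < L := by linarith
  have hT1 : C1 ≤ T := by
    refine le_trans ?_ hT
    have : C1 * 1 ≤ C1 * (1 + 3 * m * K + B ^ p) :=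
      mul_le_mul_of_nonneg_left (by linarith) (by linarith)
    linarith
  have hT0 : 0 < T := by linarith
  set M : ℝ := B * Real.exp L with hM
  have hM0 : 0 < M := mul_pos hB (Real.exp_pos L)
  have hi0 : (0 : ℝ) ≤ i := Nat.cast_nonneg i
  have hiL : (i : ℝ) ≤ L := le_trans (by exact_mod_cast hi) hmL
  have h1 := H (fun z => SP w L z / (M : ℂ)) ?_ ?_ T 0 (i / L) hT1 (by simp; positivity)
    (by positivity) (by rw [div_le_one hL0]; exact hiL)
  · simp only [zero_add, zero_sub] at h1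
    have hn : ∀ z : ℂ, ‖SP w L z / (M : ℂ)‖ ^ p = (M ^ p)⁻¹ * ‖SP w L z‖ ^ p := by
      intro z
      rw [norm_div, Complex.norm_real, Real.norm_eq_abs, abs_of_pos hM0,
        Real.div_rpow (norm_nonneg _) hM0.le, div_eq_inv_mul]
    simp only [hn, intervalIntegral.integral_const_mul] at h1
    have hMp : 0 < M ^ p := Real.rpow_pos_of_pos hM0 p
    have hMe : M ^ p = B ^ p * Real.exp (p * L) := by
      rw [hM, Real.mul_rpow hB.le (Real.exp_pos L).le, ← Real.exp_mul, mul_comm L p]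
    have h2 : ∫ t in (-T)..(2 * T), ‖SP w L (((3 / 2 : ℝ) : ℂ) + I * t)‖ ^ p ≤ 3 * T * K := by
      have h3 : ∫ t in (-T)..(2 * T), ‖SP w L (((3 / 2 : ℝ) : ℂ) + I * t)‖ ^ p ≤
          ∫ t in (-T)..(2 * T), K := by
        refine intervalIntegral.integral_mono_on (by linarith)
          ((cont w L (3 / 2) p hp).intervalIntegrable _ _)
          (continuous_const.intervalIntegrable _ _) ?_
        intro t _
        refine Real.rpow_le_rpow (norm_nonneg _) (three w B L hB hL0 hw _ ?_) hp.le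
        simp
      refine h3.trans (le_of_eq ?_)
      rw [intervalIntegral.integral_const, smul_eq_mul]
      ring
    have hiL0 : 0 ≤ (i : ℝ) / L := by positivity
    set I1 : ℝ := ∫ t in (0 : ℝ)..T, ‖SP w L (((1 / 2 + i / L : ℝ) : ℂ) + I * t)‖ ^ p with hI1
    set I2 : ℝ := ∫ t in (-T)..(2 * T), ‖SP w L (((1 / 2 : ℝ) : ℂ) + I * t)‖ ^ p with hI2
    set I3 : ℝ := ∫ t in (-T)..(2 * T), ‖SP w L (((3 / 2 : ℝ) : ℂ) + I * t)‖ ^ p with hI3
    have hI20 : 0 ≤ I2 := intervalIntegral.integral_nonneg (by linarith)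
      fun t _ => Real.rpow_nonneg (norm_nonneg _) _
    have h6 : M ^ p * ((M ^ p)⁻¹ * I1) ≤
        M ^ p * (C1 * ((M ^ p)⁻¹ * I2 + i / L * ((M ^ p)⁻¹ * I3) + 1)) :=
      mul_le_mul_of_nonneg_left h1 hMp.le
    rw [← mul_assoc, mul_inv_cancel₀ hMp.ne', one_mul] at h6
    have h7 : M ^ p * (C1 * ((M ^ p)⁻¹ * I2 + i / L * ((M ^ p)⁻¹ * I3) + 1)) =
        C1 * (I2 + i / L * I3 + M ^ p) := by
      field_simp
    rw [h7] at h6
    have h8 : (i : ℝ) / L * I3 ≤ 3 * m * K * (T / L) := by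
      have h9 : (i : ℝ) / L * I3 ≤ (i : ℝ) / L * (3 * T * K) := mul_le_mul_of_nonneg_left h2 hiL0
      have h10 : (i : ℝ) / L * (3 * T * K) = i * (3 * K * (T / L)) := by ring
      have h11 : (i : ℝ) * (3 * K * (T / L)) ≤ m * (3 * K * (T / L)) :=
        mul_le_mul_of_nonneg_right (by exact_mod_cast hi) (by positivity)
      calc (i : ℝ) / L * I3 ≤ m * (3 * K * (T / L)) := by rw [← h10] at h11; exact h9.trans h11
        _ = 3 * m * K * (T / L) := by ring
    simp only [eq_ZS]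
    rw [← hI2]
    refine h6.trans ?_
    rw [mul_assoc C1]
    refine mul_le_mul_of_nonneg_left ?_ (by linarith)
    rw [hMe]
    have hTL : 0 ≤ T / L := by positivity
    have he : 0 ≤ Real.exp (p * L) := (Real.exp_pos _).le
    have e1 : 0 ≤ 3 * m * K * I2 := by positivity
    have e2 : 0 ≤ 3 * m * K * Real.exp (p * L) := by positivity
    have e3 : 0 ≤ B ^ p * I2 := by positivity
    have e4 : 0 ≤ B ^ p * (T / L) := by positivity
    nlinarith
  · exact ((diff w L).div_const _).differentiableOn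
  · intro z hz1 hz2
    rw [norm_div, Complex.norm_real, Real.norm_eq_abs, abs_of_pos hM0, pow_zero, mul_one]
    rw [div_le_one hM0]
    exact le_exp w B L hB hL0 hw z (by linarith)

end Pool.Agent.UFY

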